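import Mathlib

/-!
Estimates of the numbers of bits.
-/

set_option autoImplicit false

namespace Pool.Agent.J4.H10.LR

theorem clog_le' (m : ℕ) (hm : 1 ≤ m) : (Nat.clog 2 m : ℝ) ≤ Real.logb 2 m + 1 := by
  rcases Nat.lt_or_ge 1 m with h2 | h2
  · have h3 : 2 ^ (Nat.clog 2 m - 1) < m := Nat.pow_pred_clog_lt_self (by norm_num) h2
    have h4 : 1 ≤ Nat.clog 2 m := Nat.clog_pos (by norm_num) h2
    have hm0 : (0 : ℝ) < m := by exact_mod_cast hm
    have h5 : ((Nat.clog 2 m - 1 : ℕ) : ℝ) ≤ Real.logb 2 m := by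
      rw [Real.le_logb_iff_rpow_le (by norm_num) hm0, Real.rpow_natCast]
      exact_mod_cast h3.le
    rw [Nat.cast_sub h4] at h5
    push_cast at h5
    linarith
  · have : m = 1 := by omega
    subst this
    simp

theorem clog_succ_le (r : ℕ) (hr : 1 ≤ r) : (Nat.clog 2 (r + 1) : ℝ) ≤ Real.logb 2 r + 2 := by
  have h := clog_le' (r + 1) (by omega)
  have hr0 : (0 : ℝ) < r := by exact_mod_cast hr
  have h2 : Real.logb 2 ((r + 1 : ℕ) : ℝ) ≤ Real.logb 2 r + 1 := by
    calc Real.logb 2 ((r + 1 : ℕ) : ℝ) ≤ Real.logb 2 ((r : ℝ) * 2) :=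
          Real.logb_le_logb_of_le (by norm_num) (by positivity) (by
            have : (1 : ℝ) ≤ r := by exact_mod_cast hr
            push_cast
            linarith)
      _ = Real.logb 2 r + 1 := by
          rw [Real.logb_mul hr0.ne' (by norm_num), Real.logb_self_eq_one (by norm_num)]
  linarith

/-- the sum of the logarithms of the parameters -/
noncomputable def lsum (k g c r : ℕ) : ℝ :=
  k + Real.logb 2 g + Real.logb 2 c + Real.logb 2 r + 1

theorem logb_nat_nonneg (n : ℕ) (hn : 1 ≤ n) : 0 ≤ Real.logb 2 (n : ℝ) :=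
  Real.logb_nonneg (by norm_num) (by exact_mod_cast hn)

theorem bound_one (r k g c d e μ T ρ : ℕ) (hr : 1 ≤ r) (hg : 1 ≤ g) (hc : 1 ≤ c) (hd : 1 ≤ d)
    (hρ : ρ = r + 1) (he : e = 9 + 2 * Nat.clog 2 ρ + k + Nat.clog 2 g + Nat.clog 2 c)
    (hμ : μ = 5 + Nat.clog 2 g + Nat.clog 2 ρ + k + c * (d * (e + 1)))
    (hT : T = 4 * g * (4 + 2 * Nat.clog 2 ρ)) :
    ((2 * (μ * T + Nat.clog 2 r + 4) * Nat.clog 2 r + 2 : ℕ) : ℝ) ≤
      1548 * g * c * d * lsum k g c r * (Real.logb 2 r + 1) ^ 2 := by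
  have l0 := logb_nat_nonneg r hr
  have lg0 := logb_nat_nonneg g hg
  have lc0 := logb_nat_nonneg c hc
  have a1 := clog_le' r hr
  have b1 := clog_succ_le r hr
  have g1 := clog_le' g hg
  have c1 := clog_le' c hc
  rw [← hρ] at b1
  set l := Real.logb 2 (r : ℝ) with hl
  set K := lsum k g c r with hK
  have hKd : K = k + Real.logb 2 g + Real.logb 2 c + l + 1 := rfl
  set L := l + 1 with hL
  have k0 : (0 : ℝ) ≤ k := Nat.cast_nonneg k
  have hL1 : 1 ≤ L := by linarith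
  have hKL : L ≤ K := by linarith
  have hK1 : 1 ≤ K := by linarith
  have hg1 : (1 : ℝ) ≤ g := by exact_mod_cast hg
  have hc1 : (1 : ℝ) ≤ c := by exact_mod_cast hc
  have hd1 : (1 : ℝ) ≤ d := by exact_mod_cast hd
  have hst : (e : ℝ) + 1 ≤ 16 * K := by
    rw [he]
    push_cast
    linarith
  have hE : (d : ℝ) * (e + 1) ≤ 16 * (d * K) := by
    have e1 : (d : ℝ) * (e + 1) ≤ d * (16 * K) := mul_le_mul_of_nonneg_left hst (by positivity)
    linarith
  have hcdK : 1 ≤ (c : ℝ) * (d * K) :=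
    one_le_mul_of_one_le_of_one_le hc1 (one_le_mul_of_one_le_of_one_le hd1 hK1)
  have hμ' : (μ : ℝ) ≤ 24 * (c * (d * K)) := by
    rw [hμ]
    push_cast
    have e1 : (c : ℝ) * (d * (e + 1)) ≤ c * (16 * (d * K)) :=
      mul_le_mul_of_nonneg_left hE (by positivity)
    have e2 : K ≤ c * (d * K) := by
      have h1 : K ≤ d * K := le_mul_of_one_le_left (by linarith) hd1
      exact h1.trans (le_mul_of_one_le_left (by positivity) hc1)
    linarith
  have hT' : (T : ℝ) ≤ 32 * (g * L) := by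
    rw [hT]
    push_cast
    have e1 : (4 : ℝ) + 2 * Nat.clog 2 ρ ≤ 8 * L := by linarith
    calc 4 * (g : ℝ) * (4 + 2 * Nat.clog 2 ρ) ≤ 4 * g * (8 * L) :=
          mul_le_mul_of_nonneg_left e1 (by positivity)
      _ = 32 * (g * L) := by ring
  have hμT : (μ : ℝ) * T ≤ 768 * ((c * (d * K)) * (g * L)) := by
    calc (μ : ℝ) * T ≤ (24 * (c * (d * K))) * (32 * (g * L)) :=
          mul_le_mul hμ' hT' (Nat.cast_nonneg _) (by positivity)
      _ = _ := by ring
  have hP : L ≤ (c * (d * K)) * (g * L) := by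
    have h1 : L ≤ g * L := le_mul_of_one_le_left (by linarith) hg1
    exact h1.trans (le_mul_of_one_le_left (by positivity) hcdK)
  set P := ((c : ℝ) * (d * K)) * (g * L) with hPd
  have hP1 : 1 ≤ P := hL1.trans hP
  have hw : (μ : ℝ) * T + Nat.clog 2 r + 4 ≤ 773 * P := by linarith
  push_cast
  calc 2 * ((μ : ℝ) * T + Nat.clog 2 r + 4) * Nat.clog 2 r + 2 ≤ 2 * (773 * P) * L + 2 := by
        have : 2 * ((μ : ℝ) * T + Nat.clog 2 r + 4) * Nat.clog 2 r ≤ 2 * (773 * P) * L :=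
          mul_le_mul (by linarith) (by linarith) (Nat.cast_nonneg _) (by positivity)
        linarith
    _ ≤ 1548 * (P * L) := by
        have : 1 ≤ P * L := one_le_mul_of_one_le_of_one_le hP1 hL1
        linarith
    _ = _ := by rw [hPd]; ring

theorem bound_two (r k g c d e μ T ρ : ℕ) (hr : 1 ≤ r) (hg : 1 ≤ g) (hc : 1 ≤ c) (hd : 1 ≤ d)
    (hρ : ρ = r + 1) (hT : T = g * (6 + Nat.clog 2 ρ))
    (he : e = 13 + 2 * Nat.clog 2 ρ + k * T + Nat.clog 2 g + Nat.clog 2 c)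
    (hμ : μ = 8 + 2 * k + (k + c * (d * (e + 1))) * T) :
    ((2 * (μ + Nat.clog 2 r + 2) * Nat.clog 2 r + 2 : ℕ) : ℝ) ≤
      492 * g ^ 2 * c * d * lsum k g c r * (Real.logb 2 r + 1) ^ 3 := by
  have l0 := logb_nat_nonneg r hr
  have lg0 := logb_nat_nonneg g hg
  have lc0 := logb_nat_nonneg c hc
  have a1 := clog_le' r hr
  have b1 := clog_succ_le r hr
  have g1 := clog_le' g hg
  have c1 := clog_le' c hc
  rw [← hρ] at b1
  set l := Real.logb 2 (r : ℝ) with hl
  set K := lsum k g c r with hK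
  have hKd : K = k + Real.logb 2 g + Real.logb 2 c + l + 1 := rfl
  set L := l + 1 with hL
  have k0 : (0 : ℝ) ≤ k := Nat.cast_nonneg k
  have hL1 : 1 ≤ L := by linarith
  have hKL : L ≤ K := by linarith
  have hK1 : 1 ≤ K := by linarith
  have hkK : (k : ℝ) ≤ K := by linarith
  have hg1 : (1 : ℝ) ≤ g := by exact_mod_cast hg
  have hc1 : (1 : ℝ) ≤ c := by exact_mod_cast hc
  have hd1 : (1 : ℝ) ≤ d := by exact_mod_cast hd
  have hT' : (T : ℝ) ≤ 8 * (g * L) := by
    rw [hT]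
    push_cast
    have e1 : (6 : ℝ) + Nat.clog 2 ρ ≤ 8 * L := by linarith
    calc (g : ℝ) * (6 + Nat.clog 2 ρ) ≤ g * (8 * L) := mul_le_mul_of_nonneg_left e1 (by positivity)
      _ = 8 * (g * L) := by ring
  set R := K * (g * L) with hR
  have hgL1 : 1 ≤ (g : ℝ) * L := one_le_mul_of_one_le_of_one_le hg1 hL1
  have hKR : K ≤ R := le_mul_of_one_le_right (by linarith) hgL1
  have hR1 : 1 ≤ R := hK1.trans hKR
  have hkT : (k : ℝ) * T ≤ 8 * R := by
    calc (k : ℝ) * T ≤ K * (8 * (g * L)) := mul_le_mul hkK hT' (Nat.cast_nonneg _) (by linarith)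
      _ = 8 * R := by rw [hR]; ring
  have hst : (e : ℝ) + 1 ≤ 28 * R := by
    rw [he]
    push_cast
    linarith
  have hE : (d : ℝ) * (e + 1) ≤ 28 * (d * R) := by
    have e1 : (d : ℝ) * (e + 1) ≤ d * (28 * R) := mul_le_mul_of_nonneg_left hst (by positivity)
    linarith
  set P := (c : ℝ) * (d * R) with hP
  have hRP : R ≤ P := by
    have h1 : R ≤ d * R := le_mul_of_one_le_left (by linarith) hd1
    exact h1.trans (le_mul_of_one_le_left (by positivity) hc1)
  have hP1 : 1 ≤ P := hR1.trans hRP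
  have hkcE : (k : ℝ) + c * (d * (e + 1)) ≤ 29 * P := by
    have e1 : (c : ℝ) * (d * (e + 1)) ≤ c * (28 * (d * R)) :=
      mul_le_mul_of_nonneg_left hE (by positivity)
    have e2 : (c : ℝ) * (28 * (d * R)) = 28 * P := by rw [hP]; ring
    linarith
  set Q := P * (g * L) with hQ
  have hPQ : P ≤ Q := le_mul_of_one_le_right (by linarith) hgL1
  have hLQ : L ≤ Q := by linarith
  have hQ1 : 1 ≤ Q := hP1.trans hPQ
  have hμ' : (μ : ℝ) ≤ 242 * Q := by
    rw [hμ]
    push_cast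
    have e1 : ((k : ℝ) + c * (d * (e + 1))) * T ≤ (29 * P) * (8 * (g * L)) :=
      mul_le_mul hkcE hT' (Nat.cast_nonneg _) (by linarith)
    have e2 : (29 * P) * (8 * (g * L)) = 232 * Q := by rw [hQ]; ring
    linarith
  push_cast
  calc 2 * ((μ : ℝ) + Nat.clog 2 r + 2) * Nat.clog 2 r + 2 ≤ 2 * (245 * Q) * L + 2 := by
        have : 2 * ((μ : ℝ) + Nat.clog 2 r + 2) * Nat.clog 2 r ≤ 2 * (245 * Q) * L :=
          mul_le_mul (by linarith) (by linarith) (Nat.cast_nonneg _) (by linarith)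
        linarith
    _ ≤ 492 * (Q * L) := by
        have : 1 ≤ Q * L := one_le_mul_of_one_le_of_one_le hQ1 hL1
        linarith
    _ = _ := by rw [hQ, hP, hR]; ring

end Pool.Agent.J4.H10.LR
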