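import Pool.Agent.J4.H10.LR.Two
import Pool.Agent.J4.H83.Hash

/-!
Protocols from one-sided and two-sided combinations.
-/

set_option autoImplicit false

namespace Pool.Agent.J4.H10.LR

open Finset Pool.Agent.R533.VC Pool.Agent.H630R2.LR

/-- `G` has nearly constant partitions like a decision tree of depth `c` with oracles which have
partitions into `2 ^ (d (e + 1))` rectangles with the error `2 ^ (-e)`. -/
def Good {X Y : Type*} (d c : ℕ) (G : X → Y → Bool) : Prop :=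
  ∀ e : ℕ, NC G ((2 ^ (d * (e + 1))) ^ c) (c * (1 / 2 ^ e))

theorem le_two_pow_clog (n : ℕ) : n ≤ 2 ^ Nat.clog 2 n := Nat.le_pow_clog (by norm_num) n

/-- **One-sided combinations.** -/
theorem proto_one {X Y : Type} [Fintype X] [Fintype Y] {Ω : Type} [Fintype Ω] (F : X → Y → Bool)
    (v : Bool) (G : Ω → X → Y → Bool) (w : Ω → ℝ) (hw : ∀ ω, 0 ≤ w ω) (k g c d : ℕ) (hg : 1 ≤ g)
    (hW : ∑ ω, w ω ≤ 2 ^ k) (hG : ∀ ω, Good d c (G ω))
    (h1 : ∀ x y, F x y = v → 1 + 1 / (g : ℝ) ≤ cmb G w x y)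
    (h0 : ∀ x y, F x y ≠ v → cmb G w x y ≤ 1) (r ρ e μ T : ℕ) (hr : (comm F).rank = r)
    (hρ : ρ = r + 1)
    (he : e = 9 + 2 * Nat.clog 2 ρ + k + Nat.clog 2 g + Nat.clog 2 c)
    (hμ : μ = 5 + Nat.clog 2 g + Nat.clog 2 ρ + k + c * (d * (e + 1)))
    (hT : T = 4 * g * (4 + 2 * Nat.clog 2 ρ)) :
    Proto F (2 * (μ * T + Nat.clog 2 r + 4) * Nat.clog 2 r + 2) := by
  classical
  have hρ1 : 1 ≤ ρ := by omega
  have hes : 320 * ρ ^ 2 * 2 ^ k * g * c ≤ 2 ^ e := by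
    have a1 := le_two_pow_clog ρ
    have a2 := le_two_pow_clog g
    have a3 := le_two_pow_clog c
    calc 320 * ρ ^ 2 * 2 ^ k * g * c = 320 * (ρ * ρ) * 2 ^ k * g * c := by ring
      _ ≤ 2 ^ 9 * (2 ^ Nat.clog 2 ρ * 2 ^ Nat.clog 2 ρ) * 2 ^ k * 2 ^ Nat.clog 2 g *
          2 ^ Nat.clog 2 c := by
          refine Nat.mul_le_mul (Nat.mul_le_mul (Nat.mul_le_mul (Nat.mul_le_mul (by norm_num)
            (Nat.mul_le_mul a1 a1)) le_rfl) a2) a3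
      _ = 2 ^ e := by
          rw [he, pow_add, pow_add, pow_add, pow_add, two_mul, pow_add]
  set N : ℕ := (2 ^ (d * (e + 1))) ^ c with hN
  have hNC : ∀ ω, NC (G ω) N (c * (1 / 2 ^ e)) := fun ω => hG ω e
  have hrich : Rich F (4 * (2 ^ μ) ^ T) := by
    refine rich_of_combination F v G w hw (2 ^ k) hW N (c * (1 / 2 ^ e)) (by positivity) hNC g ρ
      hg (by omega) h1 h0 ?_ (2 ^ μ) Nat.one_le_two_pow ?_ T ?_
    · have e1 : 320 * (ρ : ℝ) ^ 2 * 2 ^ k * g * (c * (1 / 2 ^ e)) =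
          (320 * (ρ : ℝ) ^ 2 * 2 ^ k * g * c) / 2 ^ e := by ring
      rw [e1, div_le_one (by positivity)]
      exact_mod_cast hes
    · have a1 := le_two_pow_clog ρ
      have a2 := le_two_pow_clog g
      have : 20 * g * ρ * 2 ^ k * N ≤ 2 ^ μ := by
        calc 20 * g * ρ * 2 ^ k * N ≤ 2 ^ 5 * 2 ^ Nat.clog 2 g * 2 ^ Nat.clog 2 ρ * 2 ^ k * N :=
              Nat.mul_le_mul_right _ (Nat.mul_le_mul_right _ (Nat.mul_le_mul (Nat.mul_le_mul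
                (by norm_num) a2) a1))
          _ = 2 ^ μ := by
              rw [hμ, hN, ← pow_mul, ← pow_add, ← pow_add, ← pow_add, ← pow_add,
                mul_comm c]
      exact_mod_cast this
    · have hg4 : 1 ≤ 4 * g := by omega
      have e1 := half_pow (4 * g) hg4
      have hκ0 : (0 : ℝ) ≤ 1 - 1 / ((4 * g : ℕ) : ℝ) := by
        have : (1 : ℝ) ≤ ((4 * g : ℕ) : ℝ) := by exact_mod_cast hg4
        have : 1 / ((4 * g : ℕ) : ℝ) ≤ 1 := by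
          rw [div_le_one (by linarith)]
          exact this
        linarith
      have e2 : (1 - 1 / (4 * (g : ℝ))) ^ T ≤ (1 / 2) ^ (4 + 2 * Nat.clog 2 ρ) := by
        have e3 : (1 - 1 / (4 * (g : ℝ))) = 1 - 1 / ((4 * g : ℕ) : ℝ) := by push_cast; rfl
        rw [e3, hT, pow_mul]
        exact pow_le_pow_left₀ (pow_nonneg hκ0 _) e1 _
      have e4 : (ρ : ℝ) ≤ 2 ^ Nat.clog 2 ρ := by exact_mod_cast le_two_pow_clog ρ
      have e5 : (ρ : ℝ) ^ 2 ≤ (2 ^ Nat.clog 2 ρ) ^ 2 := pow_le_pow_left₀ (Nat.cast_nonneg _) e4 2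
      calc 16 * (ρ : ℝ) ^ 2 * (1 - 1 / (4 * (g : ℝ))) ^ T ≤
          16 * (2 ^ Nat.clog 2 ρ) ^ 2 * (1 / 2) ^ (4 + 2 * Nat.clog 2 ρ) := by
            refine mul_le_mul (mul_le_mul_of_nonneg_left e5 (by norm_num)) e2 ?_ (by positivity)
            have e3 : (1 - 1 / (4 * (g : ℝ))) = 1 - 1 / ((4 * g : ℕ) : ℝ) := by push_cast; rfl
            rw [e3]
            exact pow_nonneg hκ0 _
        _ = 1 := by
            rw [pow_add, ← pow_mul, mul_comm 2 (Nat.clog 2 ρ)]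
            have e6 : (2 : ℝ) ^ (Nat.clog 2 ρ * 2) * (1 / 2) ^ (Nat.clog 2 ρ * 2) = 1 := by
              rw [← mul_pow]
              norm_num
            calc 16 * (2 : ℝ) ^ (Nat.clog 2 ρ * 2) * ((1 / 2) ^ 4 * (1 / 2) ^ (Nat.clog 2 ρ * 2))
                = (2 : ℝ) ^ (Nat.clog 2 ρ * 2) * (1 / 2) ^ (Nat.clog 2 ρ * 2) := by ring
              _ = 1 := e6
  have hnw := nw F _ (by
    have : 1 ≤ (2 ^ μ) ^ T := Nat.one_le_pow _ _ Nat.one_le_two_pow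
    omega) hrich (μ * T + Nat.clog 2 r + 4) (by
    rw [hr, ← pow_mul]
    have e4 := le_two_pow_clog r
    have e5 : 1 ≤ 2 ^ (μ * T + Nat.clog 2 r) := Nat.one_le_two_pow
    calc 2 * r * (4 * 2 ^ (μ * T)) + 2 ≤ 2 * 2 ^ Nat.clog 2 r * (4 * 2 ^ (μ * T)) + 2 := by
          have := Nat.mul_le_mul_right (4 * 2 ^ (μ * T)) (Nat.mul_le_mul_left 2 e4)
          omega
      _ = 8 * 2 ^ (μ * T + Nat.clog 2 r) + 2 := by rw [pow_add]; ring
      _ ≤ 16 * 2 ^ (μ * T + Nat.clog 2 r) := by omega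
      _ = 2 ^ (μ * T + Nat.clog 2 r + 4) := by rw [pow_add _ _ 4]; ring)
  rw [hr] at hnw
  exact hnw

/-- **Two-sided combinations on a list of rectangles.** -/
theorem proto_two {X Y : Type} [Fintype X] [Fintype Y] (F : X → Y → Bool) (m : ℕ)
    (U : ℕ → X → Prop) (V : ℕ → Y → Prop) (hcov : ∀ x y, ∃ j < m, U j x ∧ V j y)
    (k g c d : ℕ) (hg : 1 ≤ g) (hm : m ≤ 2 ^ k)
    (hloc : ∀ j < m, ∃ (Ω : Type) (_ : Fintype Ω) (G : Bool → Ω → X → Y → Bool) (w : Ω → ℝ),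
      (∀ ω, 0 ≤ w ω) ∧ ∑ ω, w ω ≤ 2 ^ k ∧ (∀ v ω, Good d c (G v ω)) ∧
      ∀ x y, U j x → V j y → (∀ i < j, ¬ (U i x ∧ V i y)) →
        1 ≤ cmb (G (F x y)) w x y ∧
        (1 + 1 / (g : ℝ)) * cmb (G (!F x y)) w x y ≤ cmb (G (F x y)) w x y)
    (r ρ e μ T : ℕ) (hr : (comm F).rank = r)
    (hρ : ρ = r + 1) (hT : T = g * (6 + Nat.clog 2 ρ))
    (he : e = 13 + 2 * Nat.clog 2 ρ + k * T + Nat.clog 2 g + Nat.clog 2 c)
    (hμ : μ = 8 + 2 * k + (k + c * (d * (e + 1))) * T) :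
    Proto F (2 * (μ + Nat.clog 2 r + 2) * Nat.clog 2 r + 2) := by
  classical
  have hρ1 : 1 ≤ ρ := by omega
  have hes : 128 * ρ * 2 ^ (k * T) * T * c ≤ 2 ^ e := by
    have a1 := le_two_pow_clog ρ
    have a2 := le_two_pow_clog g
    have a3 := le_two_pow_clog c
    have a4 : T ≤ 2 ^ Nat.clog 2 g * 2 ^ (6 + Nat.clog 2 ρ) := by
      rw [hT]
      exact Nat.mul_le_mul a2 (Nat.lt_two_pow_self).le
    calc 128 * ρ * 2 ^ (k * T) * T * c = 2 ^ 7 * ρ * 2 ^ (k * T) * T * c := by norm_num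
      _ ≤ 2 ^ 7 * 2 ^ Nat.clog 2 ρ * 2 ^ (k * T) * (2 ^ Nat.clog 2 g * 2 ^ (6 + Nat.clog 2 ρ)) *
          2 ^ Nat.clog 2 c :=
          Nat.mul_le_mul (Nat.mul_le_mul (Nat.mul_le_mul (Nat.mul_le_mul le_rfl a1) le_rfl) a4) a3
      _ = 2 ^ e := by
          rw [he, ← pow_add, ← pow_add, ← pow_add, ← pow_add, ← pow_add]
          congr 1
          ring
  set N : ℕ := (2 ^ (d * (e + 1))) ^ c with hN
  have hN1 : 1 ≤ N := Nat.one_le_pow _ _ Nat.one_le_two_pow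
  have hTT : 64 * (ρ : ℝ) ≤ (1 + 1 / (g : ℝ)) ^ T := by
    have e1 : (1 + 1 / (g : ℝ)) ^ T = ((1 + 1 / (g : ℝ)) ^ g) ^ (6 + Nat.clog 2 ρ) := by
      rw [hT, pow_mul]
    have e2 := Pool.Agent.J4.H83.two_le_pow' g hg
    have e3 : (2 : ℝ) ^ (6 + Nat.clog 2 ρ) ≤ ((1 + 1 / (g : ℝ)) ^ g) ^ (6 + Nat.clog 2 ρ) :=
      pow_le_pow_left₀ (by norm_num) e2 _
    have e4 : (ρ : ℝ) ≤ 2 ^ Nat.clog 2 ρ := by exact_mod_cast le_two_pow_clog ρ
    rw [e1]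
    refine le_trans ?_ e3
    rw [pow_add]
    linarith
  have hεε : 128 * (ρ : ℝ) * ((2 ^ k) ^ T * (T * (c * (1 / 2 ^ e)))) ≤ 1 := by
    have e1 : 128 * (ρ : ℝ) * ((2 ^ k) ^ T * (T * (c * (1 / 2 ^ e)))) =
        (128 * (ρ : ℝ) * 2 ^ (k * T) * T * c) / 2 ^ e := by
      rw [pow_mul]
      ring
    rw [e1, div_le_one (by positivity)]
    exact_mod_cast hes
  have hrich : Rich F (2 ^ μ) := by
    intro A B hA hB
    obtain ⟨j, hj, A₁, hA₁, B₁, hB₁, hA₁n, hB₁n, hin, hout, hcard⟩ := overlay m U V A B hA hB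
      (fun x _ y _ => hcov x y)
    obtain ⟨Ω, _, G, w, hw, hW, hG, h12⟩ := hloc j hj
    obtain ⟨A₂, hA₂, B₂, hB₂, v, hv, hcard2⟩ := two_local F ρ (by omega) G w hw (2 ^ k)
      (one_le_pow₀ (by norm_num)) hW N hN1 (c * (1 / 2 ^ e)) (by positivity)
      (fun v ω => hG v ω e) (1 / (g : ℝ)) (by positivity) A₁ B₁ hA₁n hB₁n
      (fun x hx y hy => (h12 x y (hin x hx y hy).1 (hin x hx y hy).2
        (fun i hi => hout i hi x hx y hy)).1)
      (fun x hx y hy => (h12 x y (hin x hx y hy).1 (hin x hx y hy).2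
        (fun i hi => hout i hi x hx y hy)).2) T hTT hεε
    refine ⟨A₂, hA₂.trans hA₁, B₂, hB₂.trans hB₁, v, hv, ?_⟩
    have e1 : A₁.card * B₁.card ≤ 32 * (2 ^ k * N) ^ T * (A₂.card * B₂.card) := by
      exact_mod_cast hcard2
    calc A.card * B.card ≤ 8 * m ^ 2 * (A₁.card * B₁.card) := hcard
      _ ≤ 8 * (2 ^ k) ^ 2 * (32 * (2 ^ k * N) ^ T * (A₂.card * B₂.card)) :=
          Nat.mul_le_mul (Nat.mul_le_mul_left _ (Nat.pow_le_pow_left hm 2)) e1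
      _ = 2 ^ 8 * (2 ^ (2 * k)) * (2 ^ k * N) ^ T * (A₂.card * B₂.card) := by ring
      _ = 2 ^ μ * (A₂.card * B₂.card) := by
          congr 1
          rw [hμ, hN, ← pow_mul, ← pow_add, ← pow_add, ← pow_mul, ← pow_add]
          congr 1
          ring
  have hnw := nw F _ Nat.one_le_two_pow hrich (μ + Nat.clog 2 r + 2) (by
    rw [hr]
    have e4 := le_two_pow_clog r
    have e5 : 1 ≤ 2 ^ (μ + Nat.clog 2 r) := Nat.one_le_two_pow
    calc 2 * r * 2 ^ μ + 2 ≤ 2 * 2 ^ Nat.clog 2 r * 2 ^ μ + 2 := by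
          have := Nat.mul_le_mul_right (2 ^ μ) (Nat.mul_le_mul_left 2 e4)
          omega
      _ = 2 * 2 ^ (μ + Nat.clog 2 r) + 2 := by rw [pow_add]; ring
      _ ≤ 4 * 2 ^ (μ + Nat.clog 2 r) := by omega
      _ = 2 ^ (μ + Nat.clog 2 r + 2) := by rw [pow_add _ _ 2]; ring)
  rw [hr] at hnw
  exact hnw

end Pool.Agent.J4.H10.LR
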