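import Pool.Agent.R533.VC.Main
import Pool.Agent.J4.H83.Trans

/-!
Partitions of rectangles into few rectangles on which a matrix is nearly constant.
-/

set_option autoImplicit false

namespace Pool.Agent.J4.H10.LR

open Finset Pool.Agent.R533.VC Pool.Agent.H630R2.LR

/-- Every rectangle `A × B` has a partition into at most `N` rectangles on which `G` is constant, up
to an error of at most `ε |A| |B|` entries altogether. -/
def NC {X Y : Type*} (G : X → Y → Bool) (N : ℕ) (ε : ℝ) : Prop :=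
  ∀ (A : Finset X) (B : Finset Y), ∃ (ι : Type) (_ : Fintype ι) (P : ι → Finset X)
    (Q : ι → Finset Y) (u : ι → Bool), Fintype.card ι ≤ N ∧ (∀ i, P i ⊆ A) ∧ (∀ i, Q i ⊆ B) ∧
    (∀ h : X → Y → ℝ, ∑ x ∈ A, ∑ y ∈ B, h x y = ∑ i, ∑ x ∈ P i, ∑ y ∈ Q i, h x y) ∧
    ∑ i, ∑ x ∈ P i, ∑ y ∈ Q i, (if G x y = u i then (0 : ℝ) else 1) ≤ ε * (A.card * B.card)

theorem NC.mono {X Y : Type*} {G : X → Y → Bool} {N N' : ℕ} {ε ε' : ℝ} (h : NC G N ε)
    (hN : N ≤ N') (hε : ε ≤ ε') : NC G N' ε' := by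
  intro A B
  obtain ⟨ι, _, P, Q, u, h1, h2, h3, h4, h5⟩ := h A B
  exact ⟨ι, _, P, Q, u, h1.trans hN, h2, h3, h4,
    h5.trans (mul_le_mul_of_nonneg_right hε (by positivity))⟩

theorem nc_const {X Y : Type*} (b : Bool) : NC (fun (_ : X) (_ : Y) => b) 1 0 := by
  intro A B
  refine ⟨Unit, inferInstance, fun _ => A, fun _ => B, fun _ => b, by simp, fun _ => Subset.rfl,
    fun _ => Subset.rfl, fun h => by simp, by simp⟩

theorem NC.swap {X Y : Type*} {G : X → Y → Bool} {N : ℕ} {ε : ℝ}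
    (h : NC (fun y x => G x y) N ε) : NC G N ε := by
  intro A B
  obtain ⟨ι, _, P, Q, u, h1, h2, h3, h4, h5⟩ := h B A
  refine ⟨ι, _, Q, P, u, h1, h3, h2, fun f => ?_, ?_⟩
  · rw [sum_comm, h4 (fun y x => f x y)]
    exact sum_congr rfl fun i _ => sum_comm
  · calc ∑ i, ∑ x ∈ Q i, ∑ y ∈ P i, (if G x y = u i then (0 : ℝ) else 1)
        = ∑ i, ∑ y ∈ P i, ∑ x ∈ Q i, (if G x y = u i then (0 : ℝ) else 1) :=
          sum_congr rfl fun i _ => sum_comm
      _ ≤ ε * (B.card * A.card) := h5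
      _ = ε * (A.card * B.card) := by ring

/-- Boolean matrices of polynomial growth are easy for uniform distributions on rectangles. -/
theorem easy_growth {X Y : Type} (F : X → Y → Bool) (D : ℕ) (hG : Growth F D) (e : ℕ) (he : 1 ≤ e)
    (s t : ℕ) (hs : 2 * e ≤ 2 ^ s) (ht : 2 * D ≤ 2 ^ t) (A : Finset X) (B : Finset Y) :
    ∃ G : X → Y → Bool, Proto G (2 * D * (s + t) + 3) ∧
      e * ∑ y ∈ B, (A.filter (fun x => F x y ≠ G x y)).card ≤ A.card * B.card := by
  classical
  by_cases hA : A.Nonempty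
  swap
  · rw [not_nonempty_iff_eq_empty] at hA
    subst hA
    exact ⟨fun _ _ => true, (Proto.const _ true fun _ _ => rfl).mono (Nat.zero_le _), by simp⟩
  by_cases hB : B.Nonempty
  swap
  · rw [not_nonempty_iff_eq_empty] at hB
    subst hB
    exact ⟨fun _ _ => true, (Proto.const _ true fun _ _ => rfl).mono (Nat.zero_le _), by simp⟩
  let Sep : Finset Y → Prop := fun P => ∀ y ∈ P, ∀ y' ∈ P, y ≠ y' → A.card < e * dif F A y y'
  obtain ⟨P, hP, hmax⟩ := exists_max_image (B.powerset.filter Sep) card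
    ⟨∅, mem_filter.mpr ⟨by simp, by intro y hy; simp at hy⟩⟩
  rw [mem_filter, mem_powerset] at hP
  have hsymm : ∀ y y', dif F A y y' = dif F A y' y := by
    intro y y'
    unfold dif
    congr 1
    ext x
    simp [ne_comm]
  have hcov : ∀ y ∈ B, ∃ p ∈ P, e * dif F A y p ≤ A.card := by
    intro y hy
    by_contra hcon
    push Not at hcon
    have hyP : y ∉ P := by
      intro hyP
      have := hcon y hyP
      have h0 : dif F A y y = 0 := by simp [dif]
      rw [h0] at this
      omega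
    have h1 : insert y P ∈ B.powerset.filter Sep := by
      rw [mem_filter, mem_powerset]
      refine ⟨insert_subset hy hP.1, ?_⟩
      intro z hz z' hz' hne
      rw [mem_insert] at hz hz'
      rcases hz with rfl | hz
      · rcases hz' with rfl | hz'
        · exact absurd rfl hne
        · exact hcon z' hz'
      · rcases hz' with rfl | hz'
        · rw [hsymm]
          exact hcon z hz
        · exact hP.2 z hz z' hz' hne
    have h2 := hmax _ h1
    rw [card_insert_of_notMem hyP] at h2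
    omega
  have hPc := pack F D hG A hA P e he hP.2 s t hs ht
  obtain ⟨p0, hp0⟩ : P.Nonempty := by
    obtain ⟨y, hy⟩ := hB
    obtain ⟨p, hp, _⟩ := hcov y hy
    exact ⟨p, hp⟩
  have hcov' : ∀ y, ∃ p : P, y ∈ B → e * dif F A y p.1 ≤ A.card := by
    intro y
    by_cases hy : y ∈ B
    · obtain ⟨p, hp, h⟩ := hcov y hy
      exact ⟨⟨p, hp⟩, fun _ => h⟩
    · exact ⟨⟨p0, hp0⟩, fun h => absurd h hy⟩
  choose c hc using hcov'
  refine ⟨fun x y => F x (c y).1, ?_, ?_⟩
  · have h1 := Proto.sendY (Q := P) (fun x y => F x (c y).1) c (2 * D * (s + t) + 2)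
      (by rw [Fintype.card_coe]; exact hPc) (fun p x _ => F x p.1) 1
      (fun p => proto_aliceKnows fun x => F x p.1) (fun _ _ => rfl)
    exact h1.mono (by omega)
  · rw [mul_sum]
    calc ∑ y ∈ B, e * (A.filter (fun x => F x y ≠ F x (c y).1)).card ≤ ∑ _y ∈ B, A.card :=
          sum_le_sum fun y hy => hc y hy
      _ = A.card * B.card := by rw [sum_const, smul_eq_mul, mul_comm]

/-- Protocols with few errors give partitions. -/
theorem nc_of_easy {X Y : Type} (A : X → Y → Bool) (c : ℕ) (ε : ℝ)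
    (h : ∀ (S : Finset X) (T : Finset Y), ∃ G : X → Y → Bool, Proto G c ∧
      ((∑ x ∈ S, ∑ y ∈ T, if A x y = G x y then (0 : ℝ) else 1)) ≤ ε * (S.card * T.card)) :
    NC A (2 ^ c) ε := by
  classical
  intro S T
  obtain ⟨G, ⟨owner, a, b, out, hout⟩, herr⟩ := h S T
  set tr := Pool.Agent.J4.H83.tr owner a b with htr
  have hout' : ∀ x y, out (tr x y c) = G x y := hout
  let U : List.Vector Bool c → X → Prop := fun s x => ∃ y, tr x y c = s.toList
  let V : List.Vector Bool c → Y → Prop := fun s y => ∃ x, tr x y c = s.toList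
  have hUV : ∀ s x y, (U s x ∧ V s y) ↔ tr x y c = s.toList := by
    intro s x y
    constructor
    · rintro ⟨⟨y', h1⟩, ⟨x', h2⟩⟩
      have h3 : Pool.Agent.J4.H83.tr owner a b x y' c = Pool.Agent.J4.H83.tr owner a b x' y c :=
        h1.trans h2.symm
      exact (Pool.Agent.J4.H83.tr_rect owner a b x x' y' y c h3).trans h1
    · intro h
      exact ⟨⟨y, h⟩, ⟨x, h⟩⟩
  have hpart : ∀ h : X → Y → ℝ, ∑ x ∈ S, ∑ y ∈ T, h x y =
      ∑ s : List.Vector Bool c, ∑ x ∈ S.filter (U s), ∑ y ∈ T.filter (V s), h x y := by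
    intro h
    have e1 : ∀ s : List.Vector Bool c, ∑ x ∈ S.filter (U s), ∑ y ∈ T.filter (V s), h x y =
        ∑ x ∈ S, ∑ y ∈ T, if tr x y c = s.toList then h x y else 0 := by
      intro s
      rw [sum_filter]
      refine sum_congr rfl fun x _ => ?_
      by_cases hx : U s x
      · rw [if_pos hx, sum_filter]
        refine sum_congr rfl fun y _ => ?_
        have := hUV s x y
        by_cases hy : V s y
        · rw [if_pos hy, if_pos (this.mp ⟨hx, hy⟩)]
        · rw [if_neg hy, if_neg fun h => hy (this.mpr h).2]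
      · rw [if_neg hx]
        symm
        refine sum_eq_zero fun y _ => ?_
        rw [if_neg fun h => hx ((hUV s x y).mpr h).1]
    have e2 : ∀ x y, h x y = ∑ s : List.Vector Bool c, if tr x y c = s.toList then h x y else 0 := by
      intro x y
      have hlen : (tr x y c).length = c := Pool.Agent.J4.H83.tr_length owner a b x y c
      obtain ⟨s₀, hs₀⟩ : ∃ s₀ : List.Vector Bool c, s₀.toList = tr x y c := ⟨⟨tr x y c, hlen⟩, rfl⟩
      symm
      refine (sum_eq_single s₀ ?_ ?_).trans ?_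
      · intro s _ hs
        rw [if_neg]
        intro h
        exact hs (Subtype.ext (h.symm.trans hs₀.symm))
      · intro h
        exact absurd (mem_univ _) h
      · exact if_pos hs₀.symm
    simp only [e1]
    calc ∑ x ∈ S, ∑ y ∈ T, h x y
        = ∑ x ∈ S, ∑ y ∈ T, ∑ s : List.Vector Bool c, (if tr x y c = s.toList then h x y else 0) :=
          sum_congr rfl fun x _ => sum_congr rfl fun y _ => e2 x y
      _ = ∑ x ∈ S, ∑ s : List.Vector Bool c, ∑ y ∈ T, (if tr x y c = s.toList then h x y else 0) :=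
          sum_congr rfl fun x _ => sum_comm
      _ = ∑ s : List.Vector Bool c, ∑ x ∈ S, ∑ y ∈ T, (if tr x y c = s.toList then h x y else 0) :=
          sum_comm
  refine ⟨List.Vector Bool c, inferInstance, fun s => S.filter (U s), fun s => T.filter (V s),
    fun s => out s.toList, ?_, fun _ => filter_subset _ _, fun _ => filter_subset _ _, hpart, ?_⟩
  · rw [card_vector, Fintype.card_bool]
  · refine le_trans (le_of_eq ?_) herr
    rw [hpart]
    refine sum_congr rfl fun s _ => sum_congr rfl fun x hx => sum_congr rfl fun y hy => ?_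
    rw [mem_filter] at hx hy
    have h1 := (hUV s x y).mp ⟨hx.2, hy.2⟩
    have h2 : out s.toList = G x y := by rw [← h1, hout']
    show (if A x y = out s.toList then (0 : ℝ) else 1) = _
    rw [h2]

/-- Asking an oracle and continuing with one of two matrices. -/
theorem NC.node {X Y : Type*} {G H₁ H₀ : X → Y → Bool} {N M : ℕ} {ε δ : ℝ} (hG : NC G N ε)
    (h1 : NC H₁ M δ) (h0 : NC H₀ M δ) :
    NC (fun x y => if G x y = true then H₁ x y else H₀ x y) (N * M) (ε + δ) := by
  classical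
  intro A B
  obtain ⟨ι, _, P, Q, u, hc, hP, hQ, hpart, herr⟩ := hG A B
  have hsub : ∀ i, ∃ (κ : Type) (_ : Fintype κ) (P' : κ → Finset X) (Q' : κ → Finset Y)
      (u' : κ → Bool), Fintype.card κ ≤ M ∧ (∀ j, P' j ⊆ P i) ∧ (∀ j, Q' j ⊆ Q i) ∧
      (∀ h : X → Y → ℝ, ∑ x ∈ P i, ∑ y ∈ Q i, h x y = ∑ j, ∑ x ∈ P' j, ∑ y ∈ Q' j, h x y) ∧
      ∑ j, ∑ x ∈ P' j, ∑ y ∈ Q' j, (if (if u i = true then H₁ x y else H₀ x y) = u' j
        then (0 : ℝ) else 1) ≤ δ * ((P i).card * (Q i).card) := by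
    intro i
    cases hu : u i
    · obtain ⟨κ, _, P', Q', u', a1, a2, a3, a4, a5⟩ := h0 (P i) (Q i)
      exact ⟨κ, _, P', Q', u', a1, a2, a3, a4, by simpa using a5⟩
    · obtain ⟨κ, _, P', Q', u', a1, a2, a3, a4, a5⟩ := h1 (P i) (Q i)
      exact ⟨κ, _, P', Q', u', a1, a2, a3, a4, by simpa using a5⟩
  choose κ hκ P' Q' u' a1 a2 a3 a4 a5 using hsub
  have hpart' : ∀ h : X → Y → ℝ, ∑ x ∈ A, ∑ y ∈ B, h x y =
      ∑ z : (i : ι) × κ i, ∑ x ∈ P' z.1 z.2, ∑ y ∈ Q' z.1 z.2, h x y := by
    intro h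
    rw [hpart, Fintype.sum_sigma]
    exact sum_congr rfl fun i _ => a4 i h
  refine ⟨(i : ι) × κ i, inferInstance, fun z => P' z.1 z.2, fun z => Q' z.1 z.2,
    fun z => u' z.1 z.2, ?_, fun z => (a2 z.1 z.2).trans (hP z.1),
    fun z => (a3 z.1 z.2).trans (hQ z.1), hpart', ?_⟩
  · rw [Fintype.card_sigma]
    calc ∑ i, Fintype.card (κ i) ≤ ∑ _i : ι, M := sum_le_sum fun i _ => a1 i
      _ = Fintype.card ι * M := by rw [sum_const, card_univ, smul_eq_mul]
      _ ≤ N * M := Nat.mul_le_mul_right _ hc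
  · have e1 : ∑ z : (i : ι) × κ i, ∑ x ∈ P' z.1 z.2, ∑ y ∈ Q' z.1 z.2,
        (if (if G x y = true then H₁ x y else H₀ x y) = u' z.1 z.2 then (0 : ℝ) else 1) ≤
        ∑ z : (i : ι) × κ i, ∑ x ∈ P' z.1 z.2, ∑ y ∈ Q' z.1 z.2,
        ((if G x y = u z.1 then (0 : ℝ) else 1) +
          (if (if u z.1 = true then H₁ x y else H₀ x y) = u' z.1 z.2 then (0 : ℝ) else 1)) := by
      refine sum_le_sum fun z _ => sum_le_sum fun x _ => sum_le_sum fun y _ => ?_
      by_cases hg : G x y = u z.1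
      · rw [hg]
        simp
      · have h2 : (if (if G x y = true then H₁ x y else H₀ x y) = u' z.1 z.2
          then (0 : ℝ) else 1) ≤ 1 := by split_ifs <;> norm_num
        have h3 : (0 : ℝ) ≤ (if (if u z.1 = true then H₁ x y else H₀ x y) = u' z.1 z.2
          then (0 : ℝ) else 1) := by split_ifs <;> norm_num
        rw [if_neg hg]
        linarith
    refine e1.trans ?_
    simp only [sum_add_distrib]
    have e2 : ∑ z : (i : ι) × κ i, ∑ x ∈ P' z.1 z.2, ∑ y ∈ Q' z.1 z.2,
        (if G x y = u z.1 then (0 : ℝ) else 1) ≤ ε * (A.card * B.card) := by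
      rw [Fintype.sum_sigma]
      refine le_trans (le_of_eq ?_) herr
      exact sum_congr rfl fun i _ => (a4 i (fun x y => if G x y = u i then (0 : ℝ) else 1)).symm
    have e3 : ∑ z : (i : ι) × κ i, ∑ x ∈ P' z.1 z.2, ∑ y ∈ Q' z.1 z.2,
        (if (if u z.1 = true then H₁ x y else H₀ x y) = u' z.1 z.2 then (0 : ℝ) else 1) ≤
        δ * (A.card * B.card) := by
      rw [Fintype.sum_sigma]
      calc _ ≤ ∑ i, δ * (((P i).card : ℝ) * (Q i).card) := sum_le_sum fun i _ => a5 i
        _ = δ * (A.card * B.card) := by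
            rw [← mul_sum]
            have h4 := hpart (fun _ _ => 1)
            simp only [sum_const, nsmul_eq_mul, mul_one] at h4
            rw [h4]
    rw [add_mul]
    exact add_le_add e2 e3

end Pool.Agent.J4.H10.LR
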