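import Pool.Agent.J4.H10.LR.Part
import Pool.Agent.J4.H83.Corr

/-!
One-sided combinations of matrices with nearly constant partitions: a better rectangle, and large
monochromatic rectangles.
-/

set_option autoImplicit false

namespace Pool.Agent.J4.H10.LR

open Finset Pool.Agent.R533.VC

section
variable {X Y : Type*}

/-- the number of the entries with value `v` -/
noncomputable def na (F : X → Y → Bool) (v : Bool) (A : Finset X) (B : Finset Y) : ℝ :=
  ∑ x ∈ A, ∑ y ∈ B, if F x y = v then (1 : ℝ) else 0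

/-- the number of the entries with value `≠ v` -/
noncomputable def nb (F : X → Y → Bool) (v : Bool) (A : Finset X) (B : Finset Y) : ℝ :=
  ∑ x ∈ A, ∑ y ∈ B, if F x y = v then (0 : ℝ) else 1

theorem na_nonneg (F : X → Y → Bool) (v : Bool) (A : Finset X) (B : Finset Y) : 0 ≤ na F v A B :=
  sum_nonneg fun _ _ => sum_nonneg fun _ _ => by split_ifs <;> norm_num

theorem nb_nonneg (F : X → Y → Bool) (v : Bool) (A : Finset X) (B : Finset Y) : 0 ≤ nb F v A B :=
  sum_nonneg fun _ _ => sum_nonneg fun _ _ => by split_ifs <;> norm_num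

theorem na_add_nb (F : X → Y → Bool) (v : Bool) (A : Finset X) (B : Finset Y) :
    na F v A B + nb F v A B = A.card * B.card := by
  unfold na nb
  rw [← sum_add_distrib]
  have : ∀ x ∈ A, (∑ y ∈ B, (if F x y = v then (1 : ℝ) else 0)) +
      (∑ y ∈ B, (if F x y = v then (0 : ℝ) else 1)) = B.card := by
    intro x _
    rw [← sum_add_distrib]
    rw [sum_congr rfl (g := fun _ => (1 : ℝ)) (fun y _ => by split_ifs <;> norm_num)]
    simp
  rw [sum_congr rfl this, sum_const, nsmul_eq_mul]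

/-- the value of the combination -/
noncomputable def cmb {Ω : Type*} [Fintype Ω] (G : Ω → X → Y → Bool) (w : Ω → ℝ) (x : X) (y : Y) :
    ℝ := ∑ ω, if G ω x y = true then w ω else 0

/-- the sum of a `[0,1]`-weight over the ones of a matrix compared with the sum over the pieces -/
theorem piece_cmp {ι : Type*} [Fintype ι] (G : X → Y → Bool) (A : Finset X) (B : Finset Y)
    (P : ι → Finset X) (Q : ι → Finset Y) (u : ι → Bool)
    (hpart : ∀ h : X → Y → ℝ, ∑ x ∈ A, ∑ y ∈ B, h x y = ∑ i, ∑ x ∈ P i, ∑ y ∈ Q i, h x y)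
    (φ : X → Y → ℝ) (hφ0 : ∀ x y, 0 ≤ φ x y) (hφ1 : ∀ x y, φ x y ≤ 1) :
    |(∑ x ∈ A, ∑ y ∈ B, if G x y = true then φ x y else 0) -
      ∑ i, (if u i = true then ∑ x ∈ P i, ∑ y ∈ Q i, φ x y else 0)| ≤
      ∑ i, ∑ x ∈ P i, ∑ y ∈ Q i, (if G x y = u i then (0 : ℝ) else 1) := by
  rw [hpart, ← sum_sub_distrib]
  refine (abs_sum_le_sum_abs _ _).trans (sum_le_sum fun i _ => ?_)
  have e : (if u i = true then ∑ x ∈ P i, ∑ y ∈ Q i, φ x y else 0) =
      ∑ x ∈ P i, ∑ y ∈ Q i, if u i = true then φ x y else 0 := by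
    split_ifs
    · rfl
    · simp
  rw [e, ← sum_sub_distrib]
  refine (abs_sum_le_sum_abs _ _).trans (sum_le_sum fun x _ => ?_)
  rw [← sum_sub_distrib]
  refine (abs_sum_le_sum_abs _ _).trans (sum_le_sum fun y _ => ?_)
  have h0 := hφ0 x y
  have h1 := hφ1 x y
  cases hg : G x y <;> cases hu : u i <;> simp [abs_of_nonneg h0, h1]

theorem cmb_sum {Ω : Type*} [Fintype Ω] (G : Ω → X → Y → Bool) (w : Ω → ℝ) (A : Finset X)
    (B : Finset Y) (φ : X → Y → ℝ) : ∑ x ∈ A, ∑ y ∈ B, cmb G w x y * φ x y =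
      ∑ ω, w ω * ∑ x ∈ A, ∑ y ∈ B, (if G ω x y = true then φ x y else 0) := by
  have e : ∀ x y, cmb G w x y * φ x y = ∑ ω, w ω * (if G ω x y = true then φ x y else 0) := by
    intro x y
    unfold cmb
    rw [sum_mul]
    refine sum_congr rfl fun ω _ => ?_
    split_ifs <;> simp
  simp only [e]
  calc ∑ x ∈ A, ∑ y ∈ B, ∑ ω, w ω * (if G ω x y = true then φ x y else 0)
      = ∑ x ∈ A, ∑ ω, ∑ y ∈ B, w ω * (if G ω x y = true then φ x y else 0) :=
        sum_congr rfl fun x _ => sum_comm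
    _ = ∑ ω, ∑ x ∈ A, ∑ y ∈ B, w ω * (if G ω x y = true then φ x y else 0) := sum_comm
    _ = _ := by simp only [mul_sum]

/-- **One step.** -/
theorem step {Ω : Type*} [Fintype Ω] (F : X → Y → Bool) (v : Bool) (G : Ω → X → Y → Bool)
    (w : Ω → ℝ) (hw : ∀ ω, 0 ≤ w ω) (W : ℝ) (hW : ∑ ω, w ω ≤ W) (N : ℕ) (ε : ℝ) (hε0 : 0 ≤ ε)
    (hNC : ∀ ω, NC (G ω) N ε) (g ρ : ℕ) (hg : 1 ≤ g) (hρ : 1 ≤ ρ)
    (h1 : ∀ x y, F x y = v → 1 + 1 / (g : ℝ) ≤ cmb G w x y)
    (h0 : ∀ x y, F x y ≠ v → cmb G w x y ≤ 1) (hε : 320 * (ρ : ℝ) ^ 2 * W * g * ε ≤ 1)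
    (M : ℝ) (hM0 : 0 < M) (hM : 20 * (g : ℝ) * ρ * W * N ≤ M) (A : Finset X) (B : Finset Y)
    (τ : ℝ) (hτ1 : 1 ≤ 4 * ρ * τ) (hτ2 : τ ≤ 4 * ρ) (ha : 0 < na F v A B)
    (hb : nb F v A B ≤ τ * na F v A B) :
    ∃ A' ⊆ A, ∃ B' ⊆ B, 0 < na F v A' B' ∧
      nb F v A' B' ≤ (1 - 1 / (4 * (g : ℝ))) * τ * na F v A' B' ∧
      ((A.card : ℝ) * B.card) ≤ M * (A'.card * B'.card) := by
  have hW0 : 0 ≤ W := (sum_nonneg fun ω _ => hw ω).trans hW
  have hg0 : (0 : ℝ) < g := by exact_mod_cast hg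
  have hρ0 : (1 : ℝ) ≤ ρ := by exact_mod_cast hρ
  have hτ0 : 0 < τ := by
    by_contra hcon
    push Not at hcon
    nlinarith
  have hS := na_add_nb F v A B
  set a := na F v A B with hadef
  set b := nb F v A B with hbdef
  set S : ℝ := (A.card : ℝ) * B.card with hSdef
  have hS0 : 0 ≤ S := by positivity
  have hSa : S ≤ 5 * ρ * a := by
    have : b ≤ 4 * ρ * a := hb.trans (mul_le_mul_of_nonneg_right hτ2 ha.le)
    nlinarith
  choose ι _ P Q u hc hP hQ hpart herr using fun ω => hNC ω A B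
  -- the sums over the pieces
  have key : ∀ φ : X → Y → ℝ, (∀ x y, 0 ≤ φ x y) → (∀ x y, φ x y ≤ 1) →
      |∑ x ∈ A, ∑ y ∈ B, cmb G w x y * φ x y - ∑ ω, w ω * ∑ i : ι ω,
        (if u ω i = true then ∑ x ∈ P ω i, ∑ y ∈ Q ω i, φ x y else 0)| ≤ W * (ε * S) := by
    intro φ hφ0 hφ1
    rw [cmb_sum, ← sum_sub_distrib]
    calc _ ≤ ∑ ω, w ω * (ε * S) := by
          refine (abs_sum_le_sum_abs _ _).trans (sum_le_sum fun ω _ => ?_)
          rw [← mul_sub, abs_mul, abs_of_nonneg (hw ω)]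
          exact mul_le_mul_of_nonneg_left ((piece_cmp (G ω) A B (P ω) (Q ω) (u ω) (hpart ω) φ hφ0
            hφ1).trans (herr ω)) (hw ω)
      _ = (∑ ω, w ω) * (ε * S) := by rw [sum_mul]
      _ ≤ _ := mul_le_mul_of_nonneg_right hW (mul_nonneg hε0 hS0)
  have hA := key (fun x y => if F x y = v then (1 : ℝ) else 0)
    (fun x y => by show (0 : ℝ) ≤ if F x y = v then (1 : ℝ) else 0; split_ifs <;> norm_num)
    (fun x y => by show (if F x y = v then (1 : ℝ) else 0) ≤ 1; split_ifs <;> norm_num)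
  have hB := key (fun x y => if F x y = v then (0 : ℝ) else 1)
    (fun x y => by show (0 : ℝ) ≤ if F x y = v then (0 : ℝ) else 1; split_ifs <;> norm_num)
    (fun x y => by show (if F x y = v then (0 : ℝ) else 1) ≤ 1; split_ifs <;> norm_num)
  have hA1 : (1 + 1 / (g : ℝ)) * a ≤
      ∑ x ∈ A, ∑ y ∈ B, cmb G w x y * (if F x y = v then (1 : ℝ) else 0) := by
    rw [hadef, na, mul_sum]
    refine sum_le_sum fun x _ => ?_
    rw [mul_sum]
    refine sum_le_sum fun y _ => ?_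
    by_cases h : F x y = v
    · rw [if_pos h, mul_one, mul_one]
      exact h1 x y h
    · rw [if_neg h, mul_zero, mul_zero]
  have hB1 : ∑ x ∈ A, ∑ y ∈ B, cmb G w x y * (if F x y = v then (0 : ℝ) else 1) ≤ b := by
    rw [hbdef, nb]
    refine sum_le_sum fun x _ => sum_le_sum fun y _ => ?_
    by_cases h : F x y = v
    · rw [if_pos h, mul_zero]
    · rw [if_neg h, mul_one]
      exact h0 x y h
  set SA : ℝ := ∑ ω, w ω * ∑ i : ι ω,
    (if u ω i = true then ∑ x ∈ P ω i, ∑ y ∈ Q ω i, (if F x y = v then (1 : ℝ) else 0) else 0)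
    with hSA
  set SB : ℝ := ∑ ω, w ω * ∑ i : ι ω,
    (if u ω i = true then ∑ x ∈ P ω i, ∑ y ∈ Q ω i, (if F x y = v then (0 : ℝ) else 1) else 0)
    with hSB
  have hA2 : (1 + 1 / (g : ℝ)) * a - W * (ε * S) ≤ SA := by
    have := (abs_le.mp hA).2
    linarith
  have hB2 : SB ≤ b + W * (ε * S) := by
    have := (abs_le.mp hB).1
    linarith
  -- the numbers
  set γ : ℝ := 1 / (g : ℝ) with hγ
  have hγ0 : 0 < γ := by positivity
  have hγ1 : γ ≤ 1 := by
    rw [hγ, div_le_one hg0]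
    exact_mod_cast hg
  have hγg : γ * g = 1 := by rw [hγ]; field_simp
  have hκ : 1 / (4 * (g : ℝ)) = γ / 4 := by rw [hγ]; field_simp
  rw [hκ]
  set δ' := W * (ε * S) with hδ'
  have hδ0 : 0 ≤ δ' := by positivity
  have hδ1 : 64 * ρ * δ' ≤ γ * a := by
    -- W ε S ≤ 5 ρ W ε a and 320 ρ² W g ε ≤ 1
    have e1 : 320 * (ρ : ℝ) ^ 2 * W * ε ≤ γ := by
      have := mul_le_mul_of_nonneg_right hε hγ0.le
      calc 320 * (ρ : ℝ) ^ 2 * W * ε = 320 * (ρ : ℝ) ^ 2 * W * ε * (γ * g) := by rw [hγg, mul_one]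
        _ = 320 * (ρ : ℝ) ^ 2 * W * g * ε * γ := by ring
        _ ≤ 1 * γ := this
        _ = γ := one_mul _
    calc 64 * ρ * δ' = 64 * ρ * W * ε * S := by rw [hδ']; ring
      _ ≤ 64 * ρ * W * ε * (5 * ρ * a) := mul_le_mul_of_nonneg_left hSa (by positivity)
      _ = 320 * (ρ : ℝ) ^ 2 * W * ε * a := by ring
      _ ≤ γ * a := mul_le_mul_of_nonneg_right e1 ha.le
  have hδ2 : 64 * δ' ≤ γ * a := by nlinarith
  have hδ3 : 16 * δ' ≤ τ * (γ * a) := by
    have e1 : 0 ≤ γ * a := by positivity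
    have e2 : 16 * δ' * 1 ≤ 16 * δ' * (4 * ρ * τ) :=
      mul_le_mul_of_nonneg_left hτ1 (by positivity)
    calc 16 * δ' = 16 * δ' * 1 := by ring
      _ ≤ 16 * δ' * (4 * ρ * τ) := e2
      _ = τ * (64 * ρ * δ') := by ring
      _ ≤ τ * (γ * a) := mul_le_mul_of_nonneg_left hδ1 hτ0.le
  have hgain : τ * a * (γ / 4) < (1 - γ / 4) * τ * SA - SB := by
    have e0 : 0 ≤ (1 - γ / 4) * τ := by
      refine mul_nonneg ?_ hτ0.le
      linarith
    have e1 : (1 - γ / 4) * τ * ((1 + γ) * a - γ * a / 64) ≤ (1 - γ / 4) * τ * SA := by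
      refine mul_le_mul_of_nonneg_left ?_ e0
      linarith
    have e2 : SB ≤ τ * a + τ * (γ * a) / 16 := by linarith
    have e3 : τ * a * (γ / 4) <
        (1 - γ / 4) * τ * ((1 + γ) * a - γ * a / 64) - (τ * a + τ * (γ * a) / 16) := by
      have hτa : 0 < τ * a := mul_pos hτ0 ha
      have e4 : (1 - γ / 4) * τ * ((1 + γ) * a - γ * a / 64) - (τ * a + τ * (γ * a) / 16) -
          τ * a * (γ / 4) = τ * a * (γ * (27 / 64 - γ * (63 / 256))) := by ring
      have e5 : 0 < τ * a * (γ * (27 / 64 - γ * (63 / 256))) := by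
        refine mul_pos hτa (mul_pos hγ0 ?_)
        nlinarith
      linarith
    linarith
  by_contra hcon
  push Not at hcon
  -- every piece contributes little
  have hpiece : ∀ ω (i : ι ω), u ω i = true →
      (1 - γ / 4) * τ * na F v (P ω i) (Q ω i) - nb F v (P ω i) (Q ω i) ≤ τ * S / M := by
    intro ω i hu
    have n0 := na_nonneg F v (P ω i) (Q ω i)
    have m0 := nb_nonneg F v (P ω i) (Q ω i)
    have hs := na_add_nb F v (P ω i) (Q ω i)
    have hr : 0 ≤ τ * S / M := by positivity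
    by_cases hneg : (1 - γ / 4) * τ * na F v (P ω i) (Q ω i) - nb F v (P ω i) (Q ω i) ≤ 0
    · exact hneg.trans hr
    · push Not at hneg
      have e0 : 0 < na F v (P ω i) (Q ω i) := by
        rcases n0.lt_or_eq with h | h
        · exact h
        · rw [← h] at hneg
          simp only [mul_zero] at hneg
          linarith
      have h2 := hcon (P ω i) (hP ω i) (Q ω i) (hQ ω i) e0 (by linarith)
      rw [le_div_iff₀ hM0]
      have e5 : na F v (P ω i) (Q ω i) ≤ ((P ω i).card : ℝ) * (Q ω i).card := by linarith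
      have e6 : (1 - γ / 4) * τ * na F v (P ω i) (Q ω i) - nb F v (P ω i) (Q ω i) ≤
          τ * (((P ω i).card : ℝ) * (Q ω i).card) := by
        have : (1 - γ / 4) * τ * na F v (P ω i) (Q ω i) ≤ τ * na F v (P ω i) (Q ω i) := by
          refine mul_le_mul_of_nonneg_right ?_ n0
          nlinarith
        have := mul_le_mul_of_nonneg_left e5 hτ0.le
        linarith
      calc _ ≤ τ * (((P ω i).card : ℝ) * (Q ω i).card) * M :=
            mul_le_mul_of_nonneg_right e6 hM0.le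
        _ = τ * (M * (((P ω i).card : ℝ) * (Q ω i).card)) := by ring
        _ ≤ τ * S := mul_le_mul_of_nonneg_left h2.le hτ0.le
  have htot : (1 - γ / 4) * τ * SA - SB ≤ W * (N * (τ * S / M)) := by
    have e1 : (1 - γ / 4) * τ * SA - SB = ∑ ω, w ω * ∑ i : ι ω, (if u ω i = true then
        (1 - γ / 4) * τ * na F v (P ω i) (Q ω i) - nb F v (P ω i) (Q ω i) else 0) := by
      rw [hSA, hSB, mul_sum, ← sum_sub_distrib]
      refine sum_congr rfl fun ω _ => ?_
      rw [mul_left_comm, ← mul_sub, mul_sum, ← sum_sub_distrib]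
      congr 1
      refine sum_congr rfl fun i _ => ?_
      split_ifs
      · rfl
      · ring
    rw [e1]
    have hr : 0 ≤ τ * S / M := by positivity
    calc _ ≤ ∑ ω, w ω * (N * (τ * S / M)) := by
          refine sum_le_sum fun ω _ => mul_le_mul_of_nonneg_left ?_ (hw ω)
          calc ∑ i : ι ω, (if u ω i = true then
              (1 - γ / 4) * τ * na F v (P ω i) (Q ω i) - nb F v (P ω i) (Q ω i) else 0)
              ≤ ∑ _i : ι ω, τ * S / M := by
                refine sum_le_sum fun i _ => ?_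
                by_cases hu : u ω i = true
                · rw [if_pos hu]
                  exact hpiece ω i hu
                · rw [if_neg hu]
                  exact hr
            _ = Fintype.card (ι ω) * (τ * S / M) := by rw [sum_const, card_univ, nsmul_eq_mul]
            _ ≤ N * (τ * S / M) := mul_le_mul_of_nonneg_right (by exact_mod_cast hc ω) hr
      _ = (∑ ω, w ω) * (N * (τ * S / M)) := by rw [sum_mul]
      _ ≤ _ := mul_le_mul_of_nonneg_right hW (by positivity)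
  have hlast : W * (N * (τ * S / M)) ≤ τ * a * (γ / 4) := by
    have e1 : W * (N * (τ * S / M)) = τ * (W * N * S) / M := by ring
    rw [e1, div_le_iff₀ hM0]
    have e2 : 20 * (ρ : ℝ) * W * N ≤ M * γ := by
      have := mul_le_mul_of_nonneg_right hM hγ0.le
      calc 20 * (ρ : ℝ) * W * N = 20 * (ρ : ℝ) * W * N * (γ * g) := by rw [hγg, mul_one]
        _ = 20 * g * (ρ : ℝ) * W * N * γ := by ring
        _ ≤ _ := this
    have e3 : W * N * S ≤ W * N * (5 * ρ * a) := mul_le_mul_of_nonneg_left hSa (by positivity)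
    calc τ * (W * N * S) ≤ τ * (W * N * (5 * ρ * a)) := mul_le_mul_of_nonneg_left e3 hτ0.le
      _ = τ * a / 4 * (20 * (ρ : ℝ) * W * N) := by ring
      _ ≤ τ * a / 4 * (M * γ) := mul_le_mul_of_nonneg_left e2 (by positivity)
      _ = τ * a * (γ / 4) * M := by ring
  linarith

/-- **Iteration.** -/
theorem iter {Ω : Type*} [Fintype Ω] (F : X → Y → Bool) (v : Bool) (G : Ω → X → Y → Bool)
    (w : Ω → ℝ) (hw : ∀ ω, 0 ≤ w ω) (W : ℝ) (hW : ∑ ω, w ω ≤ W) (N : ℕ) (ε : ℝ) (hε0 : 0 ≤ ε)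
    (hNC : ∀ ω, NC (G ω) N ε) (g ρ : ℕ) (hg : 1 ≤ g) (hρ : 1 ≤ ρ)
    (h1 : ∀ x y, F x y = v → 1 + 1 / (g : ℝ) ≤ cmb G w x y)
    (h0 : ∀ x y, F x y ≠ v → cmb G w x y ≤ 1) (hε : 320 * (ρ : ℝ) ^ 2 * W * g * ε ≤ 1)
    (M : ℝ) (hM0 : 1 ≤ M) (hM : 20 * (g : ℝ) * ρ * W * N ≤ M) (T : ℕ) :
    ∀ (A : Finset X) (B : Finset Y) (τ : ℝ), τ ≤ 4 * ρ → 0 < na F v A B →
    nb F v A B ≤ τ * na F v A B →
    ∃ A' ⊆ A, ∃ B' ⊆ B, 0 < na F v A' B' ∧
      (nb F v A' B' ≤ (1 - 1 / (4 * (g : ℝ))) ^ T * τ * na F v A' B' ∨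
        4 * ρ * nb F v A' B' ≤ na F v A' B') ∧
      ((A.card : ℝ) * B.card) ≤ M ^ T * (A'.card * B'.card) := by
  have hg0 : (0 : ℝ) < g := by exact_mod_cast hg
  have hg1 : (1 : ℝ) ≤ g := by exact_mod_cast hg
  have hκ0 : 0 ≤ 1 - 1 / (4 * (g : ℝ)) := by
    have : 1 / (4 * (g : ℝ)) ≤ 1 := by
      rw [div_le_one (by positivity)]
      linarith
    linarith
  have hκ1 : 1 - 1 / (4 * (g : ℝ)) ≤ 1 := by
    have : 0 ≤ 1 / (4 * (g : ℝ)) := by positivity
    linarith
  induction T with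
  | zero =>
    intro A B τ _ ha hb
    exact ⟨A, Subset.rfl, B, Subset.rfl, ha, Or.inl (by simpa using hb), by simp⟩
  | succ T ih =>
    intro A B τ hτ ha hb
    by_cases hτ1 : 1 ≤ 4 * ρ * τ
    · obtain ⟨A₁, hA₁, B₁, hB₁, ha₁, hb₁, hc₁⟩ := step F v G w hw W hW N ε hε0 hNC g ρ hg hρ h1 h0
        hε M (by linarith) hM A B τ hτ1 hτ ha hb
      have hρ0 : (1 : ℝ) ≤ ρ := by exact_mod_cast hρ
      have hτ0 : 0 < τ := by
        by_contra hcon
        push Not at hcon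
        nlinarith
      obtain ⟨A₂, hA₂, B₂, hB₂, ha₂, hb₂, hc₂⟩ := ih A₁ B₁ ((1 - 1 / (4 * (g : ℝ))) * τ)
        (by nlinarith) ha₁ hb₁
      refine ⟨A₂, hA₂.trans hA₁, B₂, hB₂.trans hB₁, ha₂, ?_, ?_⟩
      · rcases hb₂ with h | h
        · left
          calc _ ≤ _ := h
            _ = _ := by ring
        · exact Or.inr h
      · calc ((A.card : ℝ) * B.card) ≤ M * (A₁.card * B₁.card) := hc₁
          _ ≤ M * (M ^ T * (A₂.card * B₂.card)) := mul_le_mul_of_nonneg_left hc₂ (by linarith)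
          _ = M ^ (T + 1) * (A₂.card * B₂.card) := by ring
    · push Not at hτ1
      refine ⟨A, Subset.rfl, B, Subset.rfl, ha, Or.inr ?_, ?_⟩
      · calc 4 * ρ * nb F v A B ≤ 4 * ρ * (τ * na F v A B) :=
              mul_le_mul_of_nonneg_left hb (by positivity)
          _ = 4 * ρ * τ * na F v A B := by ring
          _ ≤ 1 * na F v A B := mul_le_mul_of_nonneg_right hτ1.le ha.le
          _ = na F v A B := one_mul _
      · have : (1 : ℝ) ≤ M ^ (T + 1) := one_le_pow₀ hM0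
        have h2 : (0 : ℝ) ≤ (A.card : ℝ) * B.card := by positivity
        nlinarith

end

open Pool.Agent.J4.H83 in
/-- **Large monochromatic rectangles.** -/
theorem rich_of_combination {X Y Ω : Type*} [Fintype X] [Fintype Y] [Fintype Ω]
    (F : X → Y → Bool) (v : Bool) (G : Ω → X → Y → Bool)
    (w : Ω → ℝ) (hw : ∀ ω, 0 ≤ w ω) (W : ℝ) (hW : ∑ ω, w ω ≤ W) (N : ℕ) (ε : ℝ) (hε0 : 0 ≤ ε)
    (hNC : ∀ ω, NC (G ω) N ε) (g ρ : ℕ) (hg : 1 ≤ g)
    (hρ : (Pool.Agent.H630R2.LR.comm F).rank + 1 ≤ ρ)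
    (h1 : ∀ x y, F x y = v → 1 + 1 / (g : ℝ) ≤ cmb G w x y)
    (h0 : ∀ x y, F x y ≠ v → cmb G w x y ≤ 1) (hε : 320 * (ρ : ℝ) ^ 2 * W * g * ε ≤ 1)
    (M : ℕ) (hM0 : 1 ≤ M) (hM : 20 * (g : ℝ) * ρ * W * N ≤ M) (T : ℕ)
    (hT : 16 * (ρ : ℝ) ^ 2 * (1 - 1 / (4 * (g : ℝ))) ^ T ≤ 1) :
    Rich F (4 * M ^ T) := by
  classical
  intro A B hA hB
  have hρ1 : 1 ≤ ρ := by omega
  have hρ0 : (1 : ℝ) ≤ ρ := by exact_mod_cast hρ1
  have hM1 : (1 : ℝ) ≤ M := by exact_mod_cast hM0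
  have hq : 1 ≤ M ^ T := Nat.one_le_pow _ _ hM0
  have hsum : ∀ (u : Bool) (A : Finset X) (B : Finset Y),
      ((∑ x ∈ A, (B.filter (fun y => ind F u x y ≠ 0)).card : ℕ) : ℝ) = na F u A B := by
    intro u A B
    unfold na
    push_cast
    refine sum_congr rfl fun x _ => ?_
    rw [card_filter]
    push_cast
    refine sum_congr rfl fun y _ => ?_
    simp only [ind_ne]
  have hnot : ∀ (A : Finset X) (B : Finset Y), na F (!v) A B = nb F v A B := by
    intro A B
    unfold na nb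
    refine sum_congr rfl fun x _ => sum_congr rfl fun y _ => ?_
    cases v <;> cases F x y <;> simp
  by_cases hcase : 4 * ρ * ∑ x ∈ A, (B.filter (fun y => ind F v x y ≠ 0)).card ≤ A.card * B.card
  · obtain ⟨A', hA', B', hB', hz, hc1, hc2⟩ :=
      sparse_zero (ind F v) ρ ((ind_rank F v).trans hρ) hρ1 A B hB hcase
    refine ⟨A', hA', B', hB', !v, fun x hx y hy => ?_, ?_⟩
    · have h2 := hz x hx y hy
      have h3 : ¬ F x y = v := by
        rw [← ind_ne F v x y]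
        exact fun h => h h2
      cases v <;> cases h4 : F x y <;> simp_all
    · calc A.card * B.card ≤ (2 * A'.card) * (2 * B'.card) := Nat.mul_le_mul hc1 hc2
        _ = 4 * 1 * (A'.card * B'.card) := by ring
        _ ≤ 4 * M ^ T * (A'.card * B'.card) :=
          Nat.mul_le_mul_right _ (Nat.mul_le_mul_left _ hq)
  · push Not at hcase
    have hAc : (0 : ℝ) < A.card := by exact_mod_cast hA.card_pos
    have hBc : (0 : ℝ) < B.card := by exact_mod_cast hB.card_pos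
    have hcase' : ((A.card : ℝ) * B.card) ≤ 4 * ρ * na F v A B := by
      rw [← hsum v A B]
      exact_mod_cast hcase.le
    have hS := na_add_nb F v A B
    have hna : 0 < na F v A B := by
      by_contra hcon
      push Not at hcon
      have : 4 * (ρ : ℝ) * na F v A B ≤ 0 := mul_nonpos_of_nonneg_of_nonpos (by positivity) hcon
      have := mul_pos hAc hBc
      linarith
    obtain ⟨A', hA', B', hB', ha', hb', hc'⟩ := iter F v G w hw W hW N ε hε0 hNC g ρ hg hρ1 h1 h0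
      hε M hM1 hM T A B (4 * ρ) le_rfl hna (by linarith)
    have hfin : 4 * ρ * nb F v A' B' ≤ na F v A' B' := by
      rcases hb' with h | h
      · calc 4 * ρ * nb F v A' B' ≤
            4 * ρ * ((1 - 1 / (4 * (g : ℝ))) ^ T * (4 * ρ) * na F v A' B') :=
              mul_le_mul_of_nonneg_left h (by positivity)
          _ = (16 * (ρ : ℝ) ^ 2 * (1 - 1 / (4 * (g : ℝ))) ^ T) * na F v A' B' := by ring
          _ ≤ 1 * na F v A' B' := mul_le_mul_of_nonneg_right hT ha'.le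
          _ = na F v A' B' := one_mul _
      · exact h
    have hB'ne : B'.Nonempty := by
      rw [nonempty_iff_ne_empty]
      rintro rfl
      simp [na] at ha'
    have hS' := na_add_nb F v A' B'
    have hb0 := nb_nonneg F v A' B'
    obtain ⟨A₂, hA₂, B₂, hB₂, hz, hc1, hc2⟩ :=
      sparse_zero (ind F (!v)) ρ ((ind_rank F (!v)).trans hρ) hρ1 A' B' hB'ne (by
        have h5 : 4 * (ρ : ℝ) * ((∑ x ∈ A', (B'.filter (fun y => ind F (!v) x y ≠ 0)).card : ℕ) : ℝ)
            ≤ A'.card * B'.card := by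
          rw [hsum (!v) A' B', hnot]
          linarith
        exact_mod_cast h5)
    refine ⟨A₂, hA₂.trans hA', B₂, hB₂.trans hB', v, fun x hx y hy => ?_, ?_⟩
    · have h2 := hz x hx y hy
      have h3 : ¬ F x y = !v := by
        rw [← ind_ne F (!v) x y]
        exact fun h => h h2
      cases v <;> cases h4 : F x y <;> simp_all
    · have h6 : A.card * B.card ≤ M ^ T * (A'.card * B'.card) := by exact_mod_cast hc'
      calc A.card * B.card ≤ M ^ T * (A'.card * B'.card) := h6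
        _ ≤ M ^ T * ((2 * A₂.card) * (2 * B₂.card)) :=
          Nat.mul_le_mul_left _ (Nat.mul_le_mul hc1 hc2)
        _ = 4 * M ^ T * (A₂.card * B₂.card) := by ring

end Pool.Agent.J4.H10.LR
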