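import Pool.Agent.J4.H10.LR.Step

/-!
Two-sided combinations with a multiplicative gap, and lists of rectangles.
-/

set_option autoImplicit false

namespace Pool.Agent.J4.H10.LR

open Finset Pool.Agent.R533.VC

/-- **Powers of a combination.** -/
theorem power {X Y : Type} {Ω : Type} [Fintype Ω] (G : Ω → X → Y → Bool) (w : Ω → ℝ)
    (hw : ∀ ω, 0 ≤ w ω) (W : ℝ) (hW : ∑ ω, w ω ≤ W) (N : ℕ) (hN : 1 ≤ N) (ε : ℝ) (hε0 : 0 ≤ ε)
    (hNC : ∀ ω, NC (G ω) N ε) (T : ℕ) :
    ∃ (Ω' : Type) (_ : Fintype Ω') (G' : Ω' → X → Y → Bool) (w' : Ω' → ℝ),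
      (∀ ω, 0 ≤ w' ω) ∧ ∑ ω, w' ω ≤ W ^ T ∧ (∀ ω, NC (G' ω) (N ^ T) (T * ε)) ∧
      ∀ x y, cmb G' w' x y = cmb G w x y ^ T := by
  classical
  have hW0 : 0 ≤ W := (sum_nonneg fun ω _ => hw ω).trans hW
  induction T with
  | zero =>
    refine ⟨Unit, inferInstance, fun _ _ _ => true, fun _ => 1, fun _ => zero_le_one, by simp,
      fun _ => ?_, fun x y => by simp [cmb]⟩
    simpa using (nc_const (X := X) (Y := Y) true)
  | succ T ih =>
    obtain ⟨Ω', _, G', w', h1, h2, h3, h4⟩ := ih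
    refine ⟨Ω × Ω', inferInstance, fun p x y => if G p.1 x y = true then G' p.2 x y else false,
      fun p => w p.1 * w' p.2, fun p => mul_nonneg (hw _) (h1 _), ?_, fun p => ?_, fun x y => ?_⟩
    · rw [Fintype.sum_prod_type]
      have e : ∑ ω, ∑ ω', w ω * w' ω' = (∑ ω, w ω) * ∑ ω', w' ω' := by
        rw [sum_mul]
        exact sum_congr rfl fun ω _ => by rw [mul_sum]
      simp only
      rw [e, pow_succ']
      exact mul_le_mul hW h2 (sum_nonneg fun ω _ => h1 ω) hW0
    · have e1 : N ^ (T + 1) = N * N ^ T := by ring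
      have e2 : ((T + 1 : ℕ) : ℝ) * ε = ε + T * ε := by push_cast; ring
      rw [e1, e2]
      refine (hNC p.1).node (h3 p.2) ?_
      exact (nc_const (X := X) (Y := Y) false).mono (Nat.one_le_pow _ _ hN) (by positivity)
    · rw [pow_succ', ← h4]
      unfold cmb
      rw [Fintype.sum_prod_type, sum_mul]
      refine sum_congr rfl fun ω _ => ?_
      by_cases h : G ω x y = true
      · rw [if_pos h, mul_sum]
        refine sum_congr rfl fun ω' _ => ?_
        simp only [h, if_true]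
        by_cases h' : G' ω' x y = true
        · rw [if_pos h', if_pos h']
        · rw [if_neg h', if_neg h', mul_zero]
      · rw [if_neg h, zero_mul]
        refine sum_eq_zero fun ω' _ => ?_
        simp [h]

/-- Replacing the matrices by unions of pieces. -/
theorem pieces {X Y : Type*} {Ω : Type*} [Fintype Ω] (G : Ω → X → Y → Bool) (w : Ω → ℝ)
    (hw : ∀ ω, 0 ≤ w ω) (W : ℝ) (hW : ∑ ω, w ω ≤ W) (N : ℕ) (ε : ℝ) (hε0 : 0 ≤ ε)
    (hNC : ∀ ω, NC (G ω) N ε) (A : Finset X) (B : Finset Y) :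
    ∃ (ι : Ω → Type) (_ : ∀ ω, Fintype (ι ω)) (P : ∀ ω, ι ω → Finset X)
      (Q : ∀ ω, ι ω → Finset Y) (u : ∀ ω, ι ω → Bool), (∀ ω, Fintype.card (ι ω) ≤ N) ∧
      (∀ ω i, P ω i ⊆ A) ∧ (∀ ω i, Q ω i ⊆ B) ∧
      ∀ φ : X → Y → ℝ, (∀ x y, 0 ≤ φ x y) → (∀ x y, φ x y ≤ 1) →
      |∑ x ∈ A, ∑ y ∈ B, cmb G w x y * φ x y - ∑ ω, w ω * ∑ i : ι ω,
        (if u ω i = true then ∑ x ∈ P ω i, ∑ y ∈ Q ω i, φ x y else 0)| ≤
        W * (ε * (A.card * B.card)) := by
  choose ι _ P Q u hc hP hQ hpart herr using fun ω => hNC ω A B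
  refine ⟨ι, inferInstance, P, Q, u, hc, hP, hQ, fun φ hφ0 hφ1 => ?_⟩
  rw [cmb_sum, ← sum_sub_distrib]
  calc _ ≤ ∑ ω, w ω * (ε * (A.card * B.card)) := by
        refine (abs_sum_le_sum_abs _ _).trans (sum_le_sum fun ω _ => ?_)
        rw [← mul_sub, abs_mul, abs_of_nonneg (hw ω)]
        exact mul_le_mul_of_nonneg_left ((piece_cmp (G ω) A B (P ω) (Q ω) (u ω) (hpart ω) φ hφ0
          hφ1).trans (herr ω)) (hw ω)
    _ = (∑ ω, w ω) * (ε * (A.card * B.card)) := by rw [sum_mul]
    _ ≤ _ := mul_le_mul_of_nonneg_right hW (by positivity)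

open Pool.Agent.J4.H83 in
/-- **A large monochromatic rectangle from a two-sided combination.** -/
theorem two_local {X Y : Type} [Fintype X] [Fintype Y] {Ω : Type} [Fintype Ω]
    (F : X → Y → Bool) (ρ : ℕ) (hρ : (Pool.Agent.H630R2.LR.comm F).rank + 1 ≤ ρ)
    (G : Bool → Ω → X → Y → Bool) (w : Ω → ℝ) (hw : ∀ ω, 0 ≤ w ω) (W : ℝ) (hW1 : 1 ≤ W)
    (hW : ∑ ω, w ω ≤ W) (N : ℕ) (hN : 1 ≤ N) (ε : ℝ) (hε0 : 0 ≤ ε)
    (hNC : ∀ v ω, NC (G v ω) N ε) (γ : ℝ) (hγ : 0 ≤ γ) (A : Finset X) (B : Finset Y)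
    (hA : A.Nonempty) (hB : B.Nonempty)
    (h1 : ∀ x ∈ A, ∀ y ∈ B, 1 ≤ cmb (G (F x y)) w x y)
    (h2 : ∀ x ∈ A, ∀ y ∈ B, (1 + γ) * cmb (G (!F x y)) w x y ≤ cmb (G (F x y)) w x y)
    (T : ℕ) (hT : 64 * (ρ : ℝ) ≤ (1 + γ) ^ T) (hε : 128 * (ρ : ℝ) * (W ^ T * (T * ε)) ≤ 1) :
    ∃ A' ⊆ A, ∃ B' ⊆ B, ∃ v : Bool, (∀ x ∈ A', ∀ y ∈ B', F x y = v) ∧
      ((A.card : ℝ) * B.card) ≤ 32 * (W * N) ^ T * (A'.card * B'.card) := by
  classical
  have hρ1 : 1 ≤ ρ := by omega
  have hρ0 : (1 : ℝ) ≤ ρ := by exact_mod_cast hρ1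
  have hAc : (0 : ℝ) < A.card := by exact_mod_cast hA.card_pos
  have hBc : (0 : ℝ) < B.card := by exact_mod_cast hB.card_pos
  set S : ℝ := (A.card : ℝ) * B.card with hS
  have hS0 : 0 < S := mul_pos hAc hBc
  choose Ω' _ G' w' p1 p2 p3 p4 using
    fun v => power (G v) w hw W hW N hN ε hε0 (hNC v) T
  have hcmb0 : ∀ v x y, 0 ≤ cmb (G v) w x y := by
    intro v x y
    refine sum_nonneg fun ω _ => ?_
    split_ifs
    · exact hw ω
    · exact le_rfl
  let φ : Bool → X → Y → ℝ := fun v x y => if F x y = v then (1 : ℝ) else 0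
  have hφ0 : ∀ v x y, 0 ≤ φ v x y := fun v x y => by
    show (0 : ℝ) ≤ if F x y = v then (1 : ℝ) else 0
    split_ifs <;> norm_num
  have hφ1 : ∀ v x y, φ v x y ≤ 1 := fun v x y => by
    show (if F x y = v then (1 : ℝ) else 0) ≤ 1
    split_ifs <;> norm_num
  let Q : Bool → Bool → ℝ := fun v u => ∑ x ∈ A, ∑ y ∈ B, cmb (G' v) (w' v) x y * φ u x y
  -- the correct parts are large
  have hlarge : S ≤ Q true true + Q false false := by
    have e : S = ∑ x ∈ A, ∑ y ∈ B, (1 : ℝ) := by simp [hS]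
    rw [e]
    show _ ≤ (∑ x ∈ A, ∑ y ∈ B, cmb (G' true) (w' true) x y * φ true x y) +
      (∑ x ∈ A, ∑ y ∈ B, cmb (G' false) (w' false) x y * φ false x y)
    rw [← sum_add_distrib]
    refine sum_le_sum fun x hx => ?_
    rw [← sum_add_distrib]
    refine sum_le_sum fun y hy => ?_
    have h := h1 x hx y hy
    rw [p4, p4]
    show (1 : ℝ) ≤ cmb (G true) w x y ^ T * (if F x y = true then (1 : ℝ) else 0) +
      cmb (G false) w x y ^ T * (if F x y = false then (1 : ℝ) else 0)
    cases hF : F x y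
    · rw [hF] at h
      have := one_le_pow₀ h (n := T)
      simpa using this
    · rw [hF] at h
      have := one_le_pow₀ h (n := T)
      simpa using this
  have hQ0 : ∀ v u, 0 ≤ Q v u := by
    intro v u
    refine sum_nonneg fun x _ => sum_nonneg fun y _ => mul_nonneg ?_ (hφ0 u x y)
    rw [p4]
    exact pow_nonneg (hcmb0 v x y) T
  obtain ⟨v, hv⟩ : ∃ v, Q (!v) (!v) ≤ Q v v := by
    rcases le_total (Q true true) (Q false false) with h | h
    · exact ⟨false, h⟩
    · exact ⟨true, h⟩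
  have hvS : S ≤ 2 * Q v v := by
    have : Q true true + Q false false = Q v v + Q (!v) (!v) := by
      cases v
      · exact add_comm _ _
      · rfl
    linarith
  have hsmall : 64 * ρ * Q v (!v) ≤ Q (!v) (!v) := by
    have e : 64 * ρ * Q v (!v) = ∑ x ∈ A, ∑ y ∈ B,
        64 * ρ * (cmb (G' v) (w' v) x y * φ (!v) x y) := by
      show 64 * (ρ : ℝ) * (∑ x ∈ A, ∑ y ∈ B, cmb (G' v) (w' v) x y * φ (!v) x y) = _
      simp only [mul_sum]
    rw [e]
    refine sum_le_sum fun x hx => sum_le_sum fun y hy => ?_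
    rw [p4, p4]
    by_cases hF : F x y = !v
    · have e2 : φ (!v) x y = 1 := if_pos hF
      rw [e2, mul_one, mul_one]
      have h := h2 x hx y hy
      rw [hF, Bool.not_not] at h
      calc 64 * (ρ : ℝ) * cmb (G v) w x y ^ T ≤ (1 + γ) ^ T * cmb (G v) w x y ^ T :=
            mul_le_mul_of_nonneg_right hT (pow_nonneg (hcmb0 v x y) T)
        _ = ((1 + γ) * cmb (G v) w x y) ^ T := by rw [mul_pow]
        _ ≤ cmb (G (!v)) w x y ^ T := pow_le_pow_left₀
            (mul_nonneg (by linarith) (hcmb0 v x y)) h T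
    · have e2 : φ (!v) x y = 0 := if_neg hF
      rw [e2, mul_zero, mul_zero, mul_zero]
  obtain ⟨ι, _, P, R, u, hc, hP, hR, happ⟩ := pieces (G' v) (w' v) (p1 v) (W ^ T) (p2 v) (N ^ T)
    (T * ε) (by positivity) (p3 v) A B
  have hA1 := happ (φ v) (hφ0 v) (hφ1 v)
  have hB1 := happ (φ (!v)) (hφ0 (!v)) (hφ1 (!v))
  have hna : ∀ (A : Finset X) (B : Finset Y), ∑ x ∈ A, ∑ y ∈ B, φ v x y = na F v A B :=
    fun A B => rfl
  have hnb : ∀ (A : Finset X) (B : Finset Y), ∑ x ∈ A, ∑ y ∈ B, φ (!v) x y = nb F v A B := by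
    intro A B
    unfold nb
    refine sum_congr rfl fun x _ => sum_congr rfl fun y _ => ?_
    show (if F x y = !v then (1 : ℝ) else 0) = _
    cases v <;> cases F x y <;> simp
  simp only [hna] at hA1
  simp only [hnb] at hB1
  set SA : ℝ := ∑ ω, w' v ω * ∑ i : ι ω, (if u ω i = true then na F v (P ω i) (R ω i) else 0)
    with hSA
  set SB : ℝ := ∑ ω, w' v ω * ∑ i : ι ω, (if u ω i = true then nb F v (P ω i) (R ω i) else 0)
    with hSB
  set δ : ℝ := W ^ T * (T * ε * (A.card * B.card)) with hδ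
  have hδ1 : 128 * ρ * δ ≤ S := by
    calc 128 * ρ * δ = 128 * (ρ : ℝ) * (W ^ T * (T * ε)) * S := by rw [hδ, hS]; ring
      _ ≤ 1 * S := mul_le_mul_of_nonneg_right hε hS0.le
      _ = S := one_mul S
  have hδ0 : 0 ≤ δ := by positivity
  have hA2 : Q v v - δ ≤ SA := by
    have h := (abs_le.mp hA1).2
    have : Q v v - SA ≤ δ := h
    linarith
  have hB2 : SB ≤ Q v (!v) + δ := by
    have h := (abs_le.mp hB1).1
    have : -δ ≤ Q v (!v) - SB := h
    linarith
  have hgain : S / 4 ≤ SA - 4 * ρ * SB := by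
    have e1 : 4 * ρ * SB ≤ 4 * ρ * (Q v (!v) + δ) := mul_le_mul_of_nonneg_left hB2 (by positivity)
    have e2 : 64 * ρ * Q v (!v) ≤ Q v v := hsmall.trans hv
    have e3 : δ ≤ ρ * δ := by nlinarith
    nlinarith [hQ0 v (!v)]
  by_contra hcon
  push Not at hcon
  have hWN : 0 < (W * N) ^ T := by
    have : (1 : ℝ) ≤ N := by exact_mod_cast hN
    positivity
  have hpiece : ∀ ω (i : ι ω), u ω i = true →
      na F v (P ω i) (R ω i) - 4 * ρ * nb F v (P ω i) (R ω i) ≤ S / (8 * (W * N) ^ T) := by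
    intro ω i hu
    by_contra hlt
    push Not at hlt
    have m0 := nb_nonneg F v (P ω i) (R ω i)
    have hs := na_add_nb F v (P ω i) (R ω i)
    have hpos : 0 < S / (8 * (W * N) ^ T) := by positivity
    have e0 : 0 < na F v (P ω i) (R ω i) := by nlinarith
    have hRne : (R ω i).Nonempty := by
      rw [nonempty_iff_ne_empty]
      intro h
      rw [h] at e0
      simp [na] at e0
    have hsum : ((∑ x ∈ P ω i, ((R ω i).filter (fun y => ind F (!v) x y ≠ 0)).card : ℕ) : ℝ) =
        nb F v (P ω i) (R ω i) := by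
      rw [← hnb]
      push_cast
      refine sum_congr rfl fun x _ => ?_
      rw [card_filter]
      push_cast
      refine sum_congr rfl fun y _ => ?_
      simp only [ind_ne]
      rfl
    obtain ⟨A₂, hA₂, B₂, hB₂, hz, hc1, hc2⟩ :=
      sparse_zero (ind F (!v)) ρ ((ind_rank F (!v)).trans hρ) hρ1 (P ω i) (R ω i) hRne (by
        have h5 : 4 * (ρ : ℝ) * ((∑ x ∈ P ω i,
            ((R ω i).filter (fun y => ind F (!v) x y ≠ 0)).card : ℕ) : ℝ)
            ≤ (P ω i).card * (R ω i).card := by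
          rw [hsum]
          linarith
        exact_mod_cast h5)
    have h6 := hcon A₂ (hA₂.trans (hP ω i)) B₂ (hB₂.trans (hR ω i)) v (fun x hx y hy => by
      have h2 := hz x hx y hy
      have h3 : ¬ F x y = !v := by
        rw [← ind_ne F (!v) x y]
        exact fun h => h h2
      cases v <;> cases h4 : F x y <;> simp_all)
    have h7 : ((P ω i).card : ℝ) * (R ω i).card ≤ 4 * ((A₂.card : ℝ) * B₂.card) := by
      have : (P ω i).card * (R ω i).card ≤ 4 * (A₂.card * B₂.card) := by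
        calc _ ≤ (2 * A₂.card) * (2 * B₂.card) := Nat.mul_le_mul hc1 hc2
          _ = _ := by ring
      exact_mod_cast this
    have h8 : S / (8 * (W * N) ^ T) < 4 * ((A₂.card : ℝ) * B₂.card) := by
      have : 0 ≤ 4 * (ρ : ℝ) * nb F v (P ω i) (R ω i) := by positivity
      linarith
    rw [div_lt_iff₀ (by positivity)] at h8
    have h9 : 4 * ((A₂.card : ℝ) * B₂.card) * (8 * (W * N) ^ T) =
        32 * (W * N) ^ T * (A₂.card * B₂.card) := by ring
    linarith
  have htot : SA - 4 * ρ * SB ≤ S / 8 := by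
    have e1 : SA - 4 * ρ * SB = ∑ ω, w' v ω * ∑ i : ι ω, (if u ω i = true then
        na F v (P ω i) (R ω i) - 4 * ρ * nb F v (P ω i) (R ω i) else 0) := by
      rw [hSA, hSB, mul_sum, ← sum_sub_distrib]
      refine sum_congr rfl fun ω _ => ?_
      rw [mul_left_comm, ← mul_sub, mul_sum, ← sum_sub_distrib]
      congr 1
      refine sum_congr rfl fun i _ => ?_
      split_ifs
      · rfl
      · ring
    rw [e1]
    have hr : 0 ≤ S / (8 * (W * N) ^ T) := by positivity
    have hWT : (0 : ℝ) ≤ W ^ T := by positivity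
    calc _ ≤ ∑ ω, w' v ω * ((N : ℝ) ^ T * (S / (8 * (W * N) ^ T))) := by
          refine sum_le_sum fun ω _ => mul_le_mul_of_nonneg_left ?_ (p1 v ω)
          calc ∑ i : ι ω, (if u ω i = true then
              na F v (P ω i) (R ω i) - 4 * ρ * nb F v (P ω i) (R ω i) else 0)
              ≤ ∑ _i : ι ω, S / (8 * (W * N) ^ T) := by
                refine sum_le_sum fun i _ => ?_
                by_cases hu : u ω i = true
                · rw [if_pos hu]
                  exact hpiece ω i hu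
                · rw [if_neg hu]
                  exact hr
            _ = Fintype.card (ι ω) * (S / (8 * (W * N) ^ T)) := by
                rw [sum_const, card_univ, nsmul_eq_mul]
            _ ≤ (N : ℝ) ^ T * (S / (8 * (W * N) ^ T)) :=
                mul_le_mul_of_nonneg_right (by exact_mod_cast hc ω) hr
      _ = (∑ ω, w' v ω) * ((N : ℝ) ^ T * (S / (8 * (W * N) ^ T))) := by rw [sum_mul]
      _ ≤ W ^ T * ((N : ℝ) ^ T * (S / (8 * (W * N) ^ T))) :=
          mul_le_mul_of_nonneg_right (p2 v) (by positivity)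
      _ = S / 8 := by
          rw [mul_pow]
          have h1 : (0 : ℝ) < W ^ T := by positivity
          have h2 : (0 : ℝ) < (N : ℝ) ^ T := by
            have : (1 : ℝ) ≤ N := by exact_mod_cast hN
            positivity
          field_simp
  linarith

/-- **Lists of rectangles** (protocols with `NP` oracles): a large rectangle in one of the rectangles
which avoids the previous ones. -/
theorem overlay {X Y : Type*} (m : ℕ) (U : ℕ → X → Prop) (V : ℕ → Y → Prop)
    (A : Finset X) (B : Finset Y) (hA : A.Nonempty) (hB : B.Nonempty)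
    (hcov : ∀ x ∈ A, ∀ y ∈ B, ∃ j < m, U j x ∧ V j y) :
    ∃ j < m, ∃ A' ⊆ A, ∃ B' ⊆ B, A'.Nonempty ∧ B'.Nonempty ∧
      (∀ x ∈ A', ∀ y ∈ B', U j x ∧ V j y) ∧
      (∀ i < j, ∀ x ∈ A', ∀ y ∈ B', ¬ (U i x ∧ V i y)) ∧
      A.card * B.card ≤ 8 * m ^ 2 * (A'.card * B'.card) := by
  classical
  have hm : 1 ≤ m := by
    obtain ⟨x, hx⟩ := hA
    obtain ⟨y, hy⟩ := hB
    obtain ⟨j, hj, _⟩ := hcov x hx y hy
    omega
  by_contra hcon
  push Not at hcon
  have key : ∀ i ≤ m, ∃ A₁ ⊆ A, ∃ B₁ ⊆ B, (∀ j < i, ∀ x ∈ A₁, ∀ y ∈ B₁, ¬ (U j x ∧ V j y)) ∧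
      (2 * (m : ℝ) - i) * (A.card * B.card) ≤ 2 * m * (A₁.card * B₁.card) := by
    intro i
    induction i with
    | zero =>
      intro _
      exact ⟨A, Subset.rfl, B, Subset.rfl, fun j hj => absurd hj (Nat.not_lt_zero j), by simp⟩
    | succ i ih =>
      intro hi
      obtain ⟨A₁, hA₁, B₁, hB₁, hav, hcard⟩ := ih (by omega)
      have hm0 : (0 : ℝ) < m := by exact_mod_cast hm
      have him : (i : ℝ) + 1 ≤ m := by exact_mod_cast hi
      have hi0 : (0 : ℝ) ≤ i := Nat.cast_nonneg i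
      have hS0 : (0 : ℝ) ≤ (A.card : ℝ) * B.card := by positivity
      -- a small part is removed
      have harith : ∀ s : ℝ, (2 * (m : ℝ) - 1) * (A₁.card * B₁.card) ≤ 2 * m * s →
          (2 * (m : ℝ) - (i + 1 : ℕ)) * (A.card * B.card) ≤ 2 * m * s := by
        intro s hs
        push_cast
        have e1 : (2 * (m : ℝ) - 1) * ((2 * (m : ℝ) - i) * (A.card * B.card)) ≤
            (2 * (m : ℝ) - 1) * (2 * m * (A₁.card * B₁.card)) :=
          mul_le_mul_of_nonneg_left hcard (by
            have : (1 : ℝ) ≤ m := by exact_mod_cast hm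
            linarith)
        have e2 : (2 * (m : ℝ)) * ((2 * (m : ℝ) - 1) * (A₁.card * B₁.card)) ≤
            (2 * m) * (2 * m * s) := mul_le_mul_of_nonneg_left hs (by positivity)
        have e3 : (2 * (m : ℝ)) * ((2 * (m : ℝ) - (i + 1)) * (A.card * B.card)) ≤
            (2 * (m : ℝ) - 1) * ((2 * (m : ℝ) - i) * (A.card * B.card)) := by
          have : (0 : ℝ) ≤ i * ((A.card : ℝ) * B.card) := by positivity
          nlinarith
        have e4 : (2 * (m : ℝ)) * ((2 * (m : ℝ) - (i + 1)) * (A.card * B.card)) ≤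
            (2 * m) * (2 * m * s) := by linarith
        exact le_of_mul_le_mul_left e4 (by positivity)
      by_cases ha : 2 * m * (A₁.filter (U i)).card ≤ A₁.card
      · refine ⟨A₁ \ A₁.filter (U i), sdiff_subset.trans hA₁, B₁, hB₁, ?_, ?_⟩
        · intro j hj x hx y hy hUV
          rw [mem_sdiff, mem_filter] at hx
          rcases Nat.lt_succ_iff_lt_or_eq.mp hj with h | h
          · exact hav j h x hx.1 y hy hUV
          · subst h
            exact hx.2 ⟨hx.1, hUV.1⟩
        · refine harith _ ?_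
          have e1 : (A₁ \ A₁.filter (U i)).card + (A₁.filter (U i)).card = A₁.card :=
            card_sdiff_add_card_eq_card (filter_subset _ _)
          have e2 : ((A₁ \ A₁.filter (U i)).card : ℝ) = A₁.card - (A₁.filter (U i)).card := by
            rw [← e1]; push_cast; ring
          have e3 : 2 * (m : ℝ) * (A₁.filter (U i)).card ≤ A₁.card := by exact_mod_cast ha
          rw [e2]
          have hb0 : (0 : ℝ) ≤ B₁.card := Nat.cast_nonneg _
          nlinarith
      · by_cases hb : 2 * m * (B₁.filter (V i)).card ≤ B₁.card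
        · refine ⟨A₁, hA₁, B₁ \ B₁.filter (V i), sdiff_subset.trans hB₁, ?_, ?_⟩
          · intro j hj x hx y hy hUV
            rw [mem_sdiff, mem_filter] at hy
            rcases Nat.lt_succ_iff_lt_or_eq.mp hj with h | h
            · exact hav j h x hx y hy.1 hUV
            · subst h
              exact hy.2 ⟨hy.1, hUV.2⟩
          · refine harith _ ?_
            have e1 : (B₁ \ B₁.filter (V i)).card + (B₁.filter (V i)).card = B₁.card :=
              card_sdiff_add_card_eq_card (filter_subset _ _)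
            have e2 : ((B₁ \ B₁.filter (V i)).card : ℝ) = B₁.card - (B₁.filter (V i)).card := by
              rw [← e1]; push_cast; ring
            have e3 : 2 * (m : ℝ) * (B₁.filter (V i)).card ≤ B₁.card := by exact_mod_cast hb
            rw [e2]
            have hb0 : (0 : ℝ) ≤ A₁.card := Nat.cast_nonneg _
            nlinarith
        · exfalso
          push Not at ha hb
          have hane : (A₁.filter (U i)).Nonempty := by
            rw [nonempty_iff_ne_empty]
            intro h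
            rw [h] at ha
            simp at ha
          have hbne : (B₁.filter (V i)).Nonempty := by
            rw [nonempty_iff_ne_empty]
            intro h
            rw [h] at hb
            simp at hb
          have h := hcon i (by omega) (A₁.filter (U i)) ((filter_subset _ _).trans hA₁)
            (B₁.filter (V i)) ((filter_subset _ _).trans hB₁) hane hbne
            (fun x hx y hy => ⟨(mem_filter.mp hx).2, (mem_filter.mp hy).2⟩)
            (fun j hj x hx y hy hU hV => hav j hj x (mem_filter.mp hx).1 y (mem_filter.mp hy).1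
              ⟨hU, hV⟩)
          have h' : (8 * (m : ℝ) ^ 2 * ((A₁.filter (U i)).card * (B₁.filter (V i)).card)) <
              A.card * B.card := by exact_mod_cast h
          have ha' : (A₁.card : ℝ) ≤ 2 * m * (A₁.filter (U i)).card := by exact_mod_cast ha.le
          have hb' : (B₁.card : ℝ) ≤ 2 * m * (B₁.filter (V i)).card := by exact_mod_cast hb.le
          have e1 : (A₁.card : ℝ) * B₁.card ≤
              (2 * m * (A₁.filter (U i)).card) * (2 * m * (B₁.filter (V i)).card) :=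
            mul_le_mul ha' hb' (Nat.cast_nonneg _) (by positivity)
          -- `|A| |B| ≤ 2 |A₁| |B₁|`
          have e2 : (m : ℝ) * (A.card * B.card) ≤ 2 * m * (A₁.card * B₁.card) := by
            refine le_trans ?_ hcard
            refine mul_le_mul_of_nonneg_right ?_ hS0
            linarith
          have e3 : (A.card : ℝ) * B.card ≤ 2 * (A₁.card * B₁.card) := by
            have : (m : ℝ) * (A.card * B.card) ≤ m * (2 * (A₁.card * B₁.card)) := by linarith
            exact le_of_mul_le_mul_left this hm0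
          nlinarith
  obtain ⟨A₁, hA₁, B₁, hB₁, hav, hcard⟩ := key m le_rfl
  have hm0 : (0 : ℝ) < m := by exact_mod_cast hm
  have hAc : (0 : ℝ) < A.card := by exact_mod_cast hA.card_pos
  have hBc : (0 : ℝ) < B.card := by exact_mod_cast hB.card_pos
  have hpos : (0 : ℝ) < (A₁.card : ℝ) * B₁.card := by
    by_contra hneg
    push Not at hneg
    have h1 : (2 * (m : ℝ) - m) * (A.card * B.card) = m * (A.card * B.card) := by ring
    rw [h1] at hcard
    have h2 : 0 < (m : ℝ) * (A.card * B.card) := by positivity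
    nlinarith
  have hx : A₁.Nonempty := by
    rw [nonempty_iff_ne_empty]
    rintro rfl
    simp at hpos
  have hy : B₁.Nonempty := by
    rw [nonempty_iff_ne_empty]
    rintro rfl
    simp at hpos
  obtain ⟨x, hx⟩ := hx
  obtain ⟨y, hy⟩ := hy
  obtain ⟨j, hj, hUV⟩ := hcov x (hA₁ hx) y (hB₁ hy)
  exact hav j hj x hx y hy hUV

end Pool.Agent.J4.H10.LR
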